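import Pool.Agent.Lib_helper42.AQ.Norms

/-! Chain rule for the two partial derivatives. -/

namespace AQ65

open AP AQ Set Filter Topology
open scoped ContDiff

variable {v f g : ℝ × ℝ → ℝ} {x : ℝ × ℝ}

lemma D1_comp (hv : DifferentiableAt ℝ v (f x, g x)) (hf : DifferentiableAt ℝ f x)
    (hg : DifferentiableAt ℝ g x) :
    D1 (fun y => v (f y, g y)) x = D1 f x * D1 v (f x, g x) + D1 g x * D2 v (f x, g x) := by
  have h := hv.hasFDerivAt.comp x (hf.hasFDerivAt.prodMk hg.hasFDerivAt)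
  have e : D1 (fun y => v (f y, g y)) x = fderiv ℝ v (f x, g x) (D1 f x, D1 g x) := by
    unfold D1
    change (fderiv ℝ (v ∘ fun y => (f y, g y)) x) (1, 0) = _
    rw [h.fderiv]
    rfl
  rw [e, fderiv_apply_eq]

lemma D2_comp (hv : DifferentiableAt ℝ v (f x, g x)) (hf : DifferentiableAt ℝ f x)
    (hg : DifferentiableAt ℝ g x) :
    D2 (fun y => v (f y, g y)) x = D2 f x * D1 v (f x, g x) + D2 g x * D2 v (f x, g x) := by
  have h := hv.hasFDerivAt.comp x (hf.hasFDerivAt.prodMk hg.hasFDerivAt)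
  have e : D2 (fun y => v (f y, g y)) x = fderiv ℝ v (f x, g x) (D2 f x, D2 g x) := by
    unfold D2
    change (fderiv ℝ (v ∘ fun y => (f y, g y)) x) (0, 1) = _
    rw [h.fderiv]
    rfl
  rw [e, fderiv_apply_eq]

lemma D1_compf (hv : Differentiable ℝ v) (hf : Differentiable ℝ f) (hg : Differentiable ℝ g) :
    D1 (fun y => v (f y, g y)) =
      fun x => D1 f x * D1 v (f x, g x) + D1 g x * D2 v (f x, g x) :=
  funext fun x => D1_comp (hv _) (hf x) (hg x)

lemma D2_compf (hv : Differentiable ℝ v) (hf : Differentiable ℝ f) (hg : Differentiable ℝ g) :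
    D2 (fun y => v (f y, g y)) =
      fun x => D2 f x * D1 v (f x, g x) + D2 g x * D2 v (f x, g x) :=
  funext fun x => D2_comp (hv _) (hf x) (hg x)

lemma diff_D1 (hv : ContDiff ℝ 2 v) : Differentiable ℝ (D1 v) :=
  (cd_D1 (n := 1) (by simpa using hv)).differentiable (by norm_num)

lemma diff_D2 (hv : ContDiff ℝ 2 v) : Differentiable ℝ (D2 v) :=
  (cd_D2 (n := 1) (by simpa using hv)).differentiable (by norm_num)

lemma diff_C2 (hv : ContDiff ℝ 2 v) : Differentiable ℝ v := hv.differentiable (by norm_num)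

lemma diff_comp (hv : Differentiable ℝ v) (hf : Differentiable ℝ f) (hg : Differentiable ℝ g) :
    Differentiable ℝ (fun y => v (f y, g y)) :=
  hv.comp (hf.prodMk hg)

lemma D11_comp (hv : ContDiff ℝ 2 v) (hf : ContDiff ℝ 2 f) (hg : ContDiff ℝ 2 g) (x : ℝ × ℝ) :
    D1 (D1 (fun y => v (f y, g y))) x =
      D1 f x ^ 2 * D1 (D1 v) (f x, g x) + 2 * (D1 f x * D1 g x * D1 (D2 v) (f x, g x))
        + D1 g x ^ 2 * D2 (D2 v) (f x, g x)
        + D1 (D1 f) x * D1 v (f x, g x) + D1 (D1 g) x * D2 v (f x, g x) := by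
  rw [D1_compf (diff_C2 hv) (diff_C2 hf) (diff_C2 hg)]
  have a1 := diff_comp (diff_D1 hv) (diff_C2 hf) (diff_C2 hg)
  have a2 := diff_comp (diff_D2 hv) (diff_C2 hf) (diff_C2 hg)
  have m1 : DifferentiableAt ℝ (fun y => D1 f y * D1 v (f y, g y)) x := (diff_D1 hf x).mul (a1 x)
  have m2 : DifferentiableAt ℝ (fun y => D1 g y * D2 v (f y, g y)) x := (diff_D1 hg x).mul (a2 x)
  rw [D1_add m1 m2]
  rw [D1_mul (diff_D1 hf x) (a1 x), D1_mul (diff_D1 hg x) (a2 x),
    D1_comp (diff_D1 hv _) (diff_C2 hf x) (diff_C2 hg x),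
    D1_comp (diff_D2 hv _) (diff_C2 hf x) (diff_C2 hg x), D12_comm_fun hv]
  ring

lemma D12_comp (hv : ContDiff ℝ 2 v) (hf : ContDiff ℝ 2 f) (hg : ContDiff ℝ 2 g) (x : ℝ × ℝ) :
    D1 (D2 (fun y => v (f y, g y))) x =
      D1 f x * D2 f x * D1 (D1 v) (f x, g x)
        + (D1 f x * D2 g x + D1 g x * D2 f x) * D1 (D2 v) (f x, g x)
        + D1 g x * D2 g x * D2 (D2 v) (f x, g x)
        + D1 (D2 f) x * D1 v (f x, g x) + D1 (D2 g) x * D2 v (f x, g x) := by
  rw [D2_compf (diff_C2 hv) (diff_C2 hf) (diff_C2 hg)]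
  have a1 := diff_comp (diff_D1 hv) (diff_C2 hf) (diff_C2 hg)
  have a2 := diff_comp (diff_D2 hv) (diff_C2 hf) (diff_C2 hg)
  have m1 : DifferentiableAt ℝ (fun y => D2 f y * D1 v (f y, g y)) x := (diff_D2 hf x).mul (a1 x)
  have m2 : DifferentiableAt ℝ (fun y => D2 g y * D2 v (f y, g y)) x := (diff_D2 hg x).mul (a2 x)
  rw [D1_add m1 m2]
  rw [D1_mul (diff_D2 hf x) (a1 x), D1_mul (diff_D2 hg x) (a2 x),
    D1_comp (diff_D1 hv _) (diff_C2 hf x) (diff_C2 hg x),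
    D1_comp (diff_D2 hv _) (diff_C2 hf x) (diff_C2 hg x), D12_comm_fun hv]
  ring

lemma D22_comp (hv : ContDiff ℝ 2 v) (hf : ContDiff ℝ 2 f) (hg : ContDiff ℝ 2 g) (x : ℝ × ℝ) :
    D2 (D2 (fun y => v (f y, g y))) x =
      D2 f x ^ 2 * D1 (D1 v) (f x, g x) + 2 * (D2 f x * D2 g x * D1 (D2 v) (f x, g x))
        + D2 g x ^ 2 * D2 (D2 v) (f x, g x)
        + D2 (D2 f) x * D1 v (f x, g x) + D2 (D2 g) x * D2 v (f x, g x) := by
  rw [D2_compf (diff_C2 hv) (diff_C2 hf) (diff_C2 hg)]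
  have a1 := diff_comp (diff_D1 hv) (diff_C2 hf) (diff_C2 hg)
  have a2 := diff_comp (diff_D2 hv) (diff_C2 hf) (diff_C2 hg)
  have m1 : DifferentiableAt ℝ (fun y => D2 f y * D1 v (f y, g y)) x := (diff_D2 hf x).mul (a1 x)
  have m2 : DifferentiableAt ℝ (fun y => D2 g y * D2 v (f y, g y)) x := (diff_D2 hg x).mul (a2 x)
  rw [D2_add m1 m2]
  rw [D2_mul (diff_D2 hf x) (a1 x), D2_mul (diff_D2 hg x) (a2 x),
    D2_comp (diff_D1 hv _) (diff_C2 hf x) (diff_C2 hg x),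
    D2_comp (diff_D2 hv _) (diff_C2 hf x) (diff_C2 hg x), D12_comm_fun hv]
  ring

/-- the Jacobian determinants of mutually inverse maps -/
lemma jac_ne {f' g' : ℝ × ℝ → ℝ} (hf : DifferentiableAt ℝ f x) (hg : DifferentiableAt ℝ g x)
    (hf' : DifferentiableAt ℝ f' (f x, g x)) (hg' : DifferentiableAt ℝ g' (f x, g x))
    (h : ∀ y, (f' (f y, g y), g' (f y, g y)) = y) :
    D1 f x * D2 g x - D1 g x * D2 f x ≠ 0 := by
  have h1 : (fun y => f' (f y, g y)) = fun y : ℝ × ℝ => y.1 := funext fun y => by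
    have := h y; exact congrArg Prod.fst this
  have h2 : (fun y => g' (f y, g y)) = fun y : ℝ × ℝ => y.2 := funext fun y => by
    have := h y; exact congrArg Prod.snd this
  have e1 := D1_comp hf' hf hg
  have e2 := D2_comp hf' hf hg
  have e3 := D1_comp hg' hf hg
  have e4 := D2_comp hg' hf hg
  rw [h1] at e1 e2
  rw [h2] at e3 e4
  rw [D1_fst] at e1
  rw [D2_fst] at e2
  rw [D1_snd] at e3
  rw [D2_snd] at e4
  intro h0
  have key : (D1 f x * D2 g x - D1 g x * D2 f x) *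
    (D1 f' (f x, g x) * D2 g' (f x, g x) - D2 f' (f x, g x) * D1 g' (f x, g x)) = 1 := by
    calc (D1 f x * D2 g x - D1 g x * D2 f x) *
        (D1 f' (f x, g x) * D2 g' (f x, g x) - D2 f' (f x, g x) * D1 g' (f x, g x))
        = (D1 f x * D1 f' (f x, g x) + D1 g x * D2 f' (f x, g x)) *
            (D2 f x * D1 g' (f x, g x) + D2 g x * D2 g' (f x, g x)) -
          (D2 f x * D1 f' (f x, g x) + D2 g x * D2 f' (f x, g x)) *
            (D1 f x * D1 g' (f x, g x) + D1 g x * D2 g' (f x, g x)) := by ring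
      _ = 1 := by rw [← e1, ← e2, ← e3, ← e4]; norm_num
  rw [h0, zero_mul] at key
  exact zero_ne_one key

end AQ65
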