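import Pool.Agent.Lib_helper42.AQ.Diffeo
import Pool.Agent.Lib_helper65.AQ.Chain
import Pool.Agent.Lib_helper65.AP.Diffeo2

/-! Transfer between a domain and the unit disc (module O). -/

namespace AQ

open AP Set Filter Topology Function AQ65
open scoped ContDiff

variable {Ω : Set (ℝ × ℝ)} {Φ Ψ : ℝ × ℝ → ℝ × ℝ}

theorem exists_Diffeo {w : ℝ × ℝ → ℝ} {c₀ : ℝ} (hw : ContDiff ℝ ∞ w) (hD : Dom w Ω c₀)
    (hne : Ω.Nonempty) (hconn : IsPreconnected Ω) : ∃ Φ Ψ, Diffeo Ω Φ Ψ := by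
  obtain ⟨Φ, Ψ, h1, h2, h3, h4, h5, h6, h7, h8⟩ := AP65.exists_diffeo hw hD hne hconn
  exact ⟨Φ, Ψ, h1, h2, h3, h4, h5, h6, h7, h8⟩

lemma Diffeo.s1 (h : Diffeo Ω Φ Ψ) : ContDiff ℝ ∞ (fun x => (Φ x).1) := contDiff_fst.comp h.sΦ
lemma Diffeo.s2 (h : Diffeo Ω Φ Ψ) : ContDiff ℝ ∞ (fun x => (Φ x).2) := contDiff_snd.comp h.sΦ
lemma Diffeo.t1 (h : Diffeo Ω Φ Ψ) : ContDiff ℝ ∞ (fun x => (Ψ x).1) := contDiff_fst.comp h.sΨ
lemma Diffeo.t2 (h : Diffeo Ω Φ Ψ) : ContDiff ℝ ∞ (fun x => (Ψ x).2) := contDiff_snd.comp h.sΨ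

lemma cd2_of_inf {f : ℝ × ℝ → ℝ} (h : ContDiff ℝ ∞ f) : ContDiff ℝ 2 f :=
  contDiff_infty.1 h 2

lemma cd1_of_inf {f : ℝ × ℝ → ℝ} (h : ContDiff ℝ ∞ f) : ContDiff ℝ 1 f :=
  contDiff_infty.1 h 1

theorem Diffeo.tr11 (h : Diffeo Ω Φ Ψ) {f : ℝ × ℝ → ℝ} (hf : ContDiff ℝ 2 f) (y : ℝ × ℝ) :
    D1 (D1 (fun x => f (Φ x))) (Ψ y) = xi1 Φ Ψ y ^ 2 * D1 (D1 f) y
      + 2 * (xi1 Φ Ψ y * xi2 Φ Ψ y * D1 (D2 f) y) + xi2 Φ Ψ y ^ 2 * D2 (D2 f) y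
      + pp1 Φ Ψ y * D1 f y + pp2 Φ Ψ y * D2 f y := by
  have e := D11_comp hf (cd2_of_inf h.s1) (cd2_of_inf h.s2) (Ψ y)
  simp only [Prod.mk.eta, h.ΦΨ] at e
  exact e

theorem Diffeo.tr22 (h : Diffeo Ω Φ Ψ) {f : ℝ × ℝ → ℝ} (hf : ContDiff ℝ 2 f) (y : ℝ × ℝ) :
    D2 (D2 (fun x => f (Φ x))) (Ψ y) = eta1 Φ Ψ y ^ 2 * D1 (D1 f) y
      + 2 * (eta1 Φ Ψ y * eta2 Φ Ψ y * D1 (D2 f) y) + eta2 Φ Ψ y ^ 2 * D2 (D2 f) y
      + qq1 Φ Ψ y * D1 f y + qq2 Φ Ψ y * D2 f y := by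
  have e := D22_comp hf (cd2_of_inf h.s1) (cd2_of_inf h.s2) (Ψ y)
  simp only [Prod.mk.eta, h.ΦΨ] at e
  exact e

theorem Diffeo.smooth (h : Diffeo Ω Φ Ψ) : ContDiff ℝ ∞ (xi1 Φ Ψ) ∧ ContDiff ℝ ∞ (xi2 Φ Ψ) ∧
    ContDiff ℝ ∞ (eta1 Φ Ψ) ∧ ContDiff ℝ ∞ (eta2 Φ Ψ) ∧ ContDiff ℝ ∞ (pp1 Φ Ψ) ∧
    ContDiff ℝ ∞ (pp2 Φ Ψ) ∧ ContDiff ℝ ∞ (qq1 Φ Ψ) ∧ ContDiff ℝ ∞ (qq2 Φ Ψ) := by
  have h1 := h.s1
  have h2 := h.s2
  exact ⟨(AP65.cdi_D1 h1).comp h.sΨ, (AP65.cdi_D1 h2).comp h.sΨ, (AP65.cdi_D2 h1).comp h.sΨ,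
    (AP65.cdi_D2 h2).comp h.sΨ, (AP65.cdi_D1 (AP65.cdi_D1 h1)).comp h.sΨ,
    (AP65.cdi_D1 (AP65.cdi_D1 h2)).comp h.sΨ, (AP65.cdi_D2 (AP65.cdi_D2 h1)).comp h.sΨ,
    (AP65.cdi_D2 (AP65.cdi_D2 h2)).comp h.sΨ⟩

theorem Diffeo.nondeg (h : Diffeo Ω Φ Ψ) : ∃ lam > 0, ∀ y ∈ Disc,
    lam ≤ |xi1 Φ Ψ y * eta2 Φ Ψ y - xi2 Φ Ψ y * eta1 Φ Ψ y| := by
  have hs := h.smooth
  have hc : Continuous fun y => |xi1 Φ Ψ y * eta2 Φ Ψ y - xi2 Φ Ψ y * eta1 Φ Ψ y| := by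
    have c1 := hs.1.continuous
    have c2 := hs.2.1.continuous
    have c3 := hs.2.2.1.continuous
    have c4 := hs.2.2.2.1.continuous
    fun_prop
  obtain ⟨y₀, -, hmin⟩ := disc_compact.exists_isMinOn ⟨0, disc_zero⟩ hc.continuousOn
  refine ⟨_, ?_, fun y hy => hmin hy⟩
  have hne : D1 (fun x => (Φ x).1) (Ψ y₀) * D2 (fun x => (Φ x).2) (Ψ y₀)
      - D1 (fun x => (Φ x).2) (Ψ y₀) * D2 (fun x => (Φ x).1) (Ψ y₀) ≠ 0 := by
    apply jac_ne (f' := fun z => (Ψ z).1) (g' := fun z => (Ψ z).2)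
    · exact diff_C2 (cd2_of_inf h.s1) _
    · exact diff_C2 (cd2_of_inf h.s2) _
    · exact diff_C2 (cd2_of_inf h.t1) _
    · exact diff_C2 (cd2_of_inf h.t2) _
    · intro y
      simp only [Prod.mk.eta, h.ΨΦ]
  exact abs_pos.2 hne

/-- bounded and Hölder on a set -/
def HB (S : Set (ℝ × ℝ)) (α M : ℝ) (f : ℝ × ℝ → ℝ) : Prop :=
  (∀ x ∈ S, |f x| ≤ M) ∧ ∀ x ∈ S, ∀ y ∈ S, |f x - f y| ≤ M * dist x y ^ α

section HB

variable {S : Set (ℝ × ℝ)} {α M M' : ℝ} {f g : ℝ × ℝ → ℝ}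

lemma HB.mono (h : HB S α M f) (hM : M ≤ M') : HB S α M' f :=
  ⟨fun x hx => (h.1 x hx).trans hM, fun x hx y hy =>
    (h.2 x hx y hy).trans (mul_le_mul_of_nonneg_right hM (Real.rpow_nonneg dist_nonneg _))⟩

lemma HB.add (hf : HB S α M f) (hg : HB S α M' g) : HB S α (M + M') (fun x => f x + g x) := by
  refine ⟨fun x hx => (abs_add_le _ _).trans (add_le_add (hf.1 x hx) (hg.1 x hx)),
    fun x hx y hy => ?_⟩
  have e : f x + g x - (f y + g y) = (f x - f y) + (g x - g y) := by ring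
  rw [e, add_mul]
  exact (abs_add_le _ _).trans (add_le_add (hf.2 x hx y hy) (hg.2 x hx y hy))

lemma HB.mul (h0 : 0 ≤ M) (h1 : 0 ≤ M') (hf : HB S α M f) (hg : HB S α M' g) :
    HB S α (2 * M * M') (fun x => f x * g x) := by
  refine ⟨fun x hx => ?_, fun x hx y hy => ?_⟩
  · rw [abs_mul]
    have := mul_le_mul (hf.1 x hx) (hg.1 x hx) (abs_nonneg _) h0
    nlinarith [mul_nonneg h0 h1]
  have e : f x * g x - f y * g y = f x * (g x - g y) + g y * (f x - f y) := by ring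
  have hd : 0 ≤ dist x y ^ α := Real.rpow_nonneg dist_nonneg _
  rw [e]
  calc |f x * (g x - g y) + g y * (f x - f y)|
      ≤ |f x| * |g x - g y| + |g y| * |f x - f y| := by
        rw [← abs_mul, ← abs_mul]; exact abs_add_le _ _
    _ ≤ M * (M' * dist x y ^ α) + M' * (M * dist x y ^ α) := by
        gcongr
        · exact hf.1 x hx
        · exact hg.2 x hx y hy
        · exact hg.1 y hy
        · exact hf.2 x hx y hy
    _ = _ := by ring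

/-- a `C¹` function is Lipschitz on bounded sets -/
lemma exists_lip (hS : Bornology.IsBounded S) (hf : ContDiff ℝ 1 f) :
    ∃ K, 0 ≤ K ∧ ∀ x ∈ S, ∀ y ∈ S, |f x - f y| ≤ K * dist x y := by
  obtain ⟨R, hR⟩ := hS.subset_closedBall (0 : ℝ × ℝ)
  have hc : Continuous (fderiv ℝ f) := hf.continuous_fderiv (by norm_num)
  obtain ⟨K, hK⟩ := (isCompact_closedBall (0 : ℝ × ℝ) R).exists_bound_of_continuousOn
    hc.continuousOn
  refine ⟨max K 0, le_max_right _ _, fun x hx y hy => ?_⟩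
  have := (convex_closedBall (0 : ℝ × ℝ) R).norm_image_sub_le_of_norm_fderiv_le (𝕜 := ℝ)
    (fun z _ => hf.differentiable (by norm_num) z)
    (fun z hz => (hK z hz).trans (le_max_left K 0)) (hR hy) (hR hx)
  rw [Real.norm_eq_abs, ← dist_eq_norm] at this
  exact this

lemma dist_rpow_bdd (hS : Bornology.IsBounded S) (hα0 : 0 < α) (hα1 : α < 1) :
    ∃ D, 0 ≤ D ∧ ∀ x ∈ S, ∀ y ∈ S, dist x y ≤ D * dist x y ^ α := by
  obtain ⟨D, hD⟩ := Metric.isBounded_iff.1 hS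
  refine ⟨(max D 1) ^ (1 - α), by positivity, fun x hx y hy => ?_⟩
  have h0 : 0 ≤ dist x y := dist_nonneg
  rcases h0.eq_or_lt with h | h
  · rw [← h, Real.zero_rpow hα0.ne', mul_zero]
  have e : dist x y = dist x y ^ (1 - α) * dist x y ^ α := by
    rw [← Real.rpow_add h]; norm_num
  calc dist x y = dist x y ^ (1 - α) * dist x y ^ α := e
    _ ≤ _ := mul_le_mul_of_nonneg_right
        (Real.rpow_le_rpow h0 ((hD hx hy).trans (le_max_left _ _)) (by linarith))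
        (Real.rpow_nonneg h0 _)

lemma exists_HB (hS : Bornology.IsBounded S) (hα0 : 0 < α) (hα1 : α < 1)
    (hf : ContDiff ℝ 1 f) : ∃ M, 0 ≤ M ∧ HB S α M f := by
  obtain ⟨K, hK0, hK⟩ := exists_lip hS hf
  obtain ⟨D, hD0, hD⟩ := dist_rpow_bdd hS hα0 hα1
  obtain ⟨B, hB⟩ := hS.isCompact_closure.exists_bound_of_continuousOn hf.continuous.continuousOn
  refine ⟨max B 0 + K * D, by positivity, fun x hx => ?_, fun x hx y hy => ?_⟩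
  · have := hB x (subset_closure hx)
    rw [Real.norm_eq_abs] at this
    have h1 := le_max_left B 0
    have h2 : 0 ≤ K * D := by positivity
    linarith
  · have hd : 0 ≤ dist x y ^ α := Real.rpow_nonneg dist_nonneg _
    calc |f x - f y| ≤ K * dist x y := hK x hx y hy
      _ ≤ K * (D * dist x y ^ α) := by gcongr; exact hD x hx y hy
      _ ≤ (max B 0 + K * D) * dist x y ^ α := by
          rw [add_mul, mul_assoc]
          have : 0 ≤ max B 0 * dist x y ^ α := by positivity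
          linarith

/-- composition with a Lipschitz map into the disc -/
lemma HB.comp {K : ℝ} {Φ : ℝ × ℝ → ℝ × ℝ} (hα0 : 0 < α) (hα1 : α < 1) (hK : 1 ≤ K)
    (hm : ∀ x ∈ S, Φ x ∈ Disc) (hΦ : ∀ x ∈ S, ∀ y ∈ S, dist (Φ x) (Φ y) ≤ K * dist x y)
    (hf : N0 α M f) : HB S α (K * M) (fun x => f (Φ x)) := by
  have hM := hf.nonneg
  have hK0 : 0 ≤ K := by linarith
  refine ⟨fun x hx => (hf.1 _ (hm x hx)).trans (by nlinarith), fun x hx y hy => ?_⟩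
  have hd : 0 ≤ dist x y ^ α := Real.rpow_nonneg dist_nonneg _
  have hKa : K ^ α ≤ K := by
    calc K ^ α ≤ K ^ (1 : ℝ) := Real.rpow_le_rpow_of_exponent_le hK hα1.le
      _ = K := Real.rpow_one K
  calc |f (Φ x) - f (Φ y)| ≤ M * dist (Φ x) (Φ y) ^ α := hf.2 _ (hm x hx) _ (hm y hy)
    _ ≤ M * (K * dist x y) ^ α := by
        gcongr
        exact hΦ x hx y hy
    _ = M * (K ^ α * dist x y ^ α) := by rw [Real.mul_rpow hK0 dist_nonneg]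
    _ ≤ M * (K * dist x y ^ α) := by gcongr
    _ = K * M * dist x y ^ α := by ring

/-- linear combinations with fixed `C¹` coefficients -/
lemma comb5 (hS : Bornology.IsBounded S) (hα0 : 0 < α) (hα1 : α < 1)
    {a1 a2 a3 a4 a5 : ℝ × ℝ → ℝ} (h1 : ContDiff ℝ 1 a1) (h2 : ContDiff ℝ 1 a2)
    (h3 : ContDiff ℝ 1 a3) (h4 : ContDiff ℝ 1 a4) (h5 : ContDiff ℝ 1 a5) :
    ∃ C, 0 ≤ C ∧ ∀ (b1 b2 b3 b4 b5 : ℝ × ℝ → ℝ) (M : ℝ), 0 ≤ M → HB S α M b1 → HB S α M b2 →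
      HB S α M b3 → HB S α M b4 → HB S α M b5 →
      HB S α (C * M) (fun x => a1 x * b1 x + a2 x * b2 x + a3 x * b3 x + a4 x * b4 x
        + a5 x * b5 x) := by
  obtain ⟨A1, p1, q1⟩ := exists_HB hS hα0 hα1 h1
  obtain ⟨A2, p2, q2⟩ := exists_HB hS hα0 hα1 h2
  obtain ⟨A3, p3, q3⟩ := exists_HB hS hα0 hα1 h3
  obtain ⟨A4, p4, q4⟩ := exists_HB hS hα0 hα1 h4
  obtain ⟨A5, p5, q5⟩ := exists_HB hS hα0 hα1 h5
  refine ⟨2 * (A1 + A2 + A3 + A4 + A5), by positivity,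
    fun b1 b2 b3 b4 b5 M hM r1 r2 r3 r4 r5 => ?_⟩
  have := ((((q1.mul p1 hM r1).add (q2.mul p2 hM r2)).add (q3.mul p3 hM r3)).add
    (q4.mul p4 hM r4)).add (q5.mul p5 hM r5)
  exact this.mono (by nlinarith)

end HB

lemma Diffeo.mem_disc (h : Diffeo Ω Φ Ψ) {x : ℝ × ℝ} (hx : x ∈ closure Ω) : Φ x ∈ Disc := by
  rw [closure_eq_self_union_frontier] at hx
  rcases hx with hx | hx
  · exact (h.inΩ x hx).le
  · exact (h.frΩ x hx).le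

lemma Diffeo.mem_closure (h : Diffeo Ω Φ Ψ) {y : ℝ × ℝ} (hy : y ∈ Disc) : Ψ y ∈ closure Ω := by
  rcases lt_or_eq_of_le (show y.1 ^ 2 + y.2 ^ 2 ≤ 1 from hy) with h1 | h1
  · exact subset_closure (h.inD y h1)
  · exact frontier_subset_closure (h.frD y h1)

lemma Diffeo.lipΦ (h : Diffeo Ω Φ Ψ) (hb : Bornology.IsBounded Ω) : ∃ K, 1 ≤ K ∧
    ∀ x ∈ closure Ω, ∀ y ∈ closure Ω, dist (Φ x) (Φ y) ≤ K * dist x y := by
  obtain ⟨K1, h1, q1⟩ := exists_lip hb.closure (cd1_of_inf h.s1)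
  obtain ⟨K2, h2, q2⟩ := exists_lip hb.closure (cd1_of_inf h.s2)
  refine ⟨K1 + K2 + 1, by linarith, fun x hx y hy => ?_⟩
  have hd : 0 ≤ dist x y := dist_nonneg
  rw [Prod.dist_eq, Real.dist_eq, Real.dist_eq]
  refine max_le ((q1 x hx y hy).trans ?_) ((q2 x hx y hy).trans ?_)
  · gcongr; linarith
  · gcongr; linarith

theorem Diffeo.disc_to_omega {α : ℝ} (hα0 : 0 < α) (hα1 : α < 1) (h : Diffeo Ω Φ Ψ)
    (hb : Bornology.IsBounded Ω) : ∃ C, 0 < C ∧ ∀ (f : ℝ × ℝ → ℝ) (M : ℝ), ContDiff ℝ 3 f →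
      N2 α M f → ∀ x ∈ closure Ω, ∀ y ∈ closure Ω,
      |f (Φ x)| ≤ C * M ∧ |D1 (fun x => f (Φ x)) x| ≤ C * M ∧ |D2 (fun x => f (Φ x)) x| ≤ C * M ∧
      |D1 (D1 (fun x => f (Φ x))) x| ≤ C * M ∧ |D1 (D2 (fun x => f (Φ x))) x| ≤ C * M ∧
      |D2 (D2 (fun x => f (Φ x))) x| ≤ C * M ∧ |f (Φ x) - f (Φ y)| ≤ C * M * dist x y ∧
      |D1 (D1 (fun x => f (Φ x))) x - D1 (D1 (fun x => f (Φ x))) y| ≤ C * M * dist x y ^ α ∧
      |D1 (D2 (fun x => f (Φ x))) x - D1 (D2 (fun x => f (Φ x))) y| ≤ C * M * dist x y ^ α ∧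
      |D2 (D2 (fun x => f (Φ x))) x - D2 (D2 (fun x => f (Φ x))) y| ≤ C * M * dist x y ^ α := by
  obtain ⟨K, hK1, hK⟩ := h.lipΦ hb
  have hK0 : 0 ≤ K := by linarith
  have c1 := h.s1
  have c2 := h.s2
  have d11 := AP65.cdi_D1 c1
  have d12 := AP65.cdi_D1 c2
  have d21 := AP65.cdi_D2 c1
  have d22 := AP65.cdi_D2 c2
  have hcl := hb.closure
  have hz : ContDiff ℝ 1 (fun _ : ℝ × ℝ => (0 : ℝ)) := contDiff_const
  -- coefficients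
  obtain ⟨C1, p1, q1⟩ := comb5 hcl hα0 hα1 (cd1_of_inf d11) (cd1_of_inf d12) hz hz hz
  obtain ⟨C2, p2, q2⟩ := comb5 hcl hα0 hα1 (cd1_of_inf d21) (cd1_of_inf d22) hz hz hz
  obtain ⟨C3, p3, q3⟩ := comb5 hcl hα0 hα1 (cd1_of_inf (d11.pow 2))
    (cd1_of_inf (contDiff_const (c := (2 : ℝ)).mul (d11.mul d12))) (cd1_of_inf (d12.pow 2))
    (cd1_of_inf (AP65.cdi_D1 d11)) (cd1_of_inf (AP65.cdi_D1 d12))
  obtain ⟨C4, p4, q4⟩ := comb5 hcl hα0 hα1 (cd1_of_inf (d11.mul d21))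
    (cd1_of_inf ((d11.mul d22).add (d12.mul d21))) (cd1_of_inf (d12.mul d22))
    (cd1_of_inf (AP65.cdi_D1 d21)) (cd1_of_inf (AP65.cdi_D1 d22))
  obtain ⟨C5, p5, q5⟩ := comb5 hcl hα0 hα1 (cd1_of_inf (d21.pow 2))
    (cd1_of_inf (contDiff_const (c := (2 : ℝ)).mul (d21.mul d22))) (cd1_of_inf (d22.pow 2))
    (cd1_of_inf (AP65.cdi_D2 d21)) (cd1_of_inf (AP65.cdi_D2 d22))
  refine ⟨4 * K * (C1 + C2 + C3 + C4 + C5 + 1), by positivity, fun f M hf hN => ?_⟩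
  have hM := hN.nonneg
  have hf2 : ContDiff ℝ 2 f := hf.of_le (by norm_num)
  have e1 : Differentiable ℝ (D1 f) := diff_D1 hf2
  have e2 : Differentiable ℝ (D2 f) := diff_D2 hf2
  have n1 : N0 α (4 * M) (D1 f) := hN.2.1.n0 hα0 hα1 e1
  have n2 : N0 α (4 * M) (D2 f) := hN.2.2.n0 hα0 hα1 e2
  have n11 : N0 α (4 * M) (D1 (D1 f)) := hN.2.1.2.1.mono (by linarith)
  have n12 : N0 α (4 * M) (D1 (D2 f)) := hN.2.2.2.1.mono (by linarith)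
  have n22 : N0 α (4 * M) (D2 (D2 f)) := hN.2.2.2.2.mono (by linarith)
  have hmem : ∀ x ∈ closure Ω, Φ x ∈ Disc := fun x hx => h.mem_disc hx
  have b1 := HB.comp hα0 hα1 hK1 hmem hK n1
  have b2 := HB.comp hα0 hα1 hK1 hmem hK n2
  have b11 := HB.comp hα0 hα1 hK1 hmem hK n11
  have b12 := HB.comp hα0 hα1 hK1 hmem hK n12
  have b22 := HB.comp hα0 hα1 hK1 hmem hK n22
  have hKM : 0 ≤ K * (4 * M) := by positivity
  have g1 := q1 _ _ _ _ _ _ hKM b1 b2 b1 b1 b1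
  have g2 := q2 _ _ _ _ _ _ hKM b1 b2 b1 b1 b1
  have g3 := q3 _ _ _ _ _ _ hKM b11 b12 b22 b1 b2
  have g4 := q4 _ _ _ _ _ _ hKM b11 b12 b22 b1 b2
  have g5 := q5 _ _ _ _ _ _ hKM b11 b12 b22 b1 b2
  have E1 : ∀ x, D1 (fun x => f (Φ x)) x = D1 (fun x => (Φ x).1) x * D1 f (Φ x)
      + D1 (fun x => (Φ x).2) x * D2 f (Φ x) := fun x =>
    D1_comp (v := f) (diff_C2 hf2 _) (diff_C2 (cd2_of_inf c1) x) (diff_C2 (cd2_of_inf c2) x)
  have E2 : ∀ x, D2 (fun x => f (Φ x)) x = D2 (fun x => (Φ x).1) x * D1 f (Φ x)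
      + D2 (fun x => (Φ x).2) x * D2 f (Φ x) := fun x =>
    D2_comp (v := f) (diff_C2 hf2 _) (diff_C2 (cd2_of_inf c1) x) (diff_C2 (cd2_of_inf c2) x)
  have E3 := D11_comp hf2 (cd2_of_inf c1) (cd2_of_inf c2)
  have E4 := D12_comp hf2 (cd2_of_inf c1) (cd2_of_inf c2)
  have E5 := D22_comp hf2 (cd2_of_inf c1) (cd2_of_inf c2)
  simp only [Prod.mk.eta] at E3 E4 E5
  have hC : ∀ Ci : ℝ, 0 ≤ Ci → Ci ≤ C1 + C2 + C3 + C4 + C5 →
      Ci * (K * (4 * M)) ≤ 4 * K * (C1 + C2 + C3 + C4 + C5 + 1) * M := by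
    intro Ci _ hCi
    have : 0 ≤ 4 * K * M := by positivity
    nlinarith
  have g3' : HB (closure Ω) α (4 * K * (C1 + C2 + C3 + C4 + C5 + 1) * M)
      (D1 (D1 (fun x => f (Φ x)))) := by
    have e : D1 (D1 (fun x => f (Φ x))) = fun x => D1 (fun x => (Φ x).1) x ^ 2 * D1 (D1 f) (Φ x)
        + 2 * (D1 (fun x => (Φ x).1) x * D1 (fun x => (Φ x).2) x) * D1 (D2 f) (Φ x)
        + D1 (fun x => (Φ x).2) x ^ 2 * D2 (D2 f) (Φ x)
        + D1 (D1 (fun x => (Φ x).1)) x * D1 f (Φ x)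
        + D1 (D1 (fun x => (Φ x).2)) x * D2 f (Φ x) := by
      funext x
      rw [E3 x]; ring
    rw [e]
    exact g3.mono (hC _ p3 (by linarith))
  have g4' : HB (closure Ω) α (4 * K * (C1 + C2 + C3 + C4 + C5 + 1) * M)
      (D1 (D2 (fun x => f (Φ x)))) := by
    have e : D1 (D2 (fun x => f (Φ x))) = fun x =>
        D1 (fun x => (Φ x).1) x * D2 (fun x => (Φ x).1) x * D1 (D1 f) (Φ x)
        + (D1 (fun x => (Φ x).1) x * D2 (fun x => (Φ x).2) x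
          + D1 (fun x => (Φ x).2) x * D2 (fun x => (Φ x).1) x) * D1 (D2 f) (Φ x)
        + D1 (fun x => (Φ x).2) x * D2 (fun x => (Φ x).2) x * D2 (D2 f) (Φ x)
        + D1 (D2 (fun x => (Φ x).1)) x * D1 f (Φ x)
        + D1 (D2 (fun x => (Φ x).2)) x * D2 f (Φ x) := by
      funext x
      rw [E4 x]
    rw [e]
    exact g4.mono (hC _ p4 (by linarith))
  have g5' : HB (closure Ω) α (4 * K * (C1 + C2 + C3 + C4 + C5 + 1) * M)
      (D2 (D2 (fun x => f (Φ x)))) := by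
    have e : D2 (D2 (fun x => f (Φ x))) = fun x => D2 (fun x => (Φ x).1) x ^ 2 * D1 (D1 f) (Φ x)
        + 2 * (D2 (fun x => (Φ x).1) x * D2 (fun x => (Φ x).2) x) * D1 (D2 f) (Φ x)
        + D2 (fun x => (Φ x).2) x ^ 2 * D2 (D2 f) (Φ x)
        + D2 (D2 (fun x => (Φ x).1)) x * D1 f (Φ x)
        + D2 (D2 (fun x => (Φ x).2)) x * D2 f (Φ x) := by
      funext x
      rw [E5 x]; ring
    rw [e]
    exact g5.mono (hC _ p5 (by linarith))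
  have hlip : Lip (2 * M) f := lip_of_bd (diff_C2 hf2) hN.2.1.1 hN.2.2.1
  intro x hx y hy
  refine ⟨?_, ?_, ?_, g3'.1 x hx, g4'.1 x hx, g5'.1 x hx, ?_, g3'.2 x hx y hy, g4'.2 x hx y hy,
    g5'.2 x hx y hy⟩
  · refine (hN.1 _ (hmem x hx)).trans ?_
    have h2 : 1 ≤ 4 * K * (C1 + C2 + C3 + C4 + C5 + 1) := by nlinarith
    nlinarith
  · have := g1.1 x hx
    simp only [zero_mul, add_zero] at this
    rw [E1 x]
    exact this.trans (hC _ p1 (by linarith))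
  · have := g2.1 x hx
    simp only [zero_mul, add_zero] at this
    rw [E2 x]
    exact this.trans (hC _ p2 (by linarith))
  · have hd : 0 ≤ dist x y := dist_nonneg
    calc |f (Φ x) - f (Φ y)| ≤ 2 * M * dist (Φ x) (Φ y) := hlip _ (hmem x hx) _ (hmem y hy)
      _ ≤ 2 * M * (K * dist x y) := by gcongr; exact hK x hx y hy
      _ = (2 * K) * M * dist x y := by ring
      _ ≤ _ := by
          refine mul_le_mul_of_nonneg_right (mul_le_mul_of_nonneg_right ?_ hM) hd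
          have : 0 ≤ K * (C1 + C2 + C3 + C4 + C5) := by positivity
          nlinarith

theorem Diffeo.omega_to_disc (h : Diffeo Ω Φ Ψ) : ∃ C, 0 < C ∧ ∀ (u : ℝ × ℝ → ℝ) (M : ℝ),
    ContDiff ℝ 2 u → (∀ x ∈ closure Ω, |u x| ≤ M ∧ |D1 u x| ≤ M ∧ |D2 u x| ≤ M ∧
      |D1 (D1 u) x| ≤ M ∧ |D1 (D2 u) x| ≤ M ∧ |D2 (D2 u) x| ≤ M) →
    Bd (C * M) (fun y => u (Ψ y)) ∧ Bd (C * M) (D1 (fun y => u (Ψ y))) ∧
    Bd (C * M) (D2 (fun y => u (Ψ y))) ∧ Bd (C * M) (D1 (D1 (fun y => u (Ψ y)))) ∧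
    Bd (C * M) (D1 (D2 (fun y => u (Ψ y)))) ∧ Bd (C * M) (D2 (D2 (fun y => u (Ψ y)))) := by
  have c1 := h.t1
  have c2 := h.t2
  have d11 := AP65.cdi_D1 c1
  have d12 := AP65.cdi_D1 c2
  have d21 := AP65.cdi_D2 c1
  have d22 := AP65.cdi_D2 c2
  obtain ⟨A1, p1, q1⟩ := exists_bd d11.continuous
  obtain ⟨A2, p2, q2⟩ := exists_bd d12.continuous
  obtain ⟨A3, p3, q3⟩ := exists_bd d21.continuous
  obtain ⟨A4, p4, q4⟩ := exists_bd d22.continuous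
  obtain ⟨A5, p5, q5⟩ := exists_bd (AP65.cdi_D1 d11).continuous
  obtain ⟨A6, p6, q6⟩ := exists_bd (AP65.cdi_D1 d12).continuous
  obtain ⟨A7, p7, q7⟩ := exists_bd (AP65.cdi_D1 d21).continuous
  obtain ⟨A8, p8, q8⟩ := exists_bd (AP65.cdi_D1 d22).continuous
  obtain ⟨A9, p9, q9⟩ := exists_bd (AP65.cdi_D2 d21).continuous
  obtain ⟨A10, p10, q10⟩ := exists_bd (AP65.cdi_D2 d22).continuous
  set K : ℝ := 1 + (A1 + A2 + A3 + A4 + A5 + A6 + A7 + A8 + A9 + A10) with hKdef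
  have hK1 : 1 ≤ K := by rw [hKdef]; linarith [show 0 ≤ A1 + A2 + A3 + A4 + A5 + A6 + A7 + A8 + A9 + A10 by positivity]
  have hK0 : 0 ≤ K := by linarith
  refine ⟨4 * K ^ 2 + 2 * K + 1, by positivity, fun u M hu hM => ?_⟩
  have hM0 : 0 ≤ M := (abs_nonneg _).trans (hM _ (h.mem_closure disc_zero)).1
  have B1 : Bd K (D1 (fun x => (Ψ x).1)) := q1.mono (by rw [hKdef]; linarith)
  have B2 : Bd K (D1 (fun x => (Ψ x).2)) := q2.mono (by rw [hKdef]; linarith)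
  have B3 : Bd K (D2 (fun x => (Ψ x).1)) := q3.mono (by rw [hKdef]; linarith)
  have B4 : Bd K (D2 (fun x => (Ψ x).2)) := q4.mono (by rw [hKdef]; linarith)
  have B5 : Bd K (D1 (D1 (fun x => (Ψ x).1))) := q5.mono (by rw [hKdef]; linarith)
  have B6 : Bd K (D1 (D1 (fun x => (Ψ x).2))) := q6.mono (by rw [hKdef]; linarith)
  have B7 : Bd K (D1 (D2 (fun x => (Ψ x).1))) := q7.mono (by rw [hKdef]; linarith)
  have B8 : Bd K (D1 (D2 (fun x => (Ψ x).2))) := q8.mono (by rw [hKdef]; linarith)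
  have B9 : Bd K (D2 (D2 (fun x => (Ψ x).1))) := q9.mono (by rw [hKdef]; linarith)
  have B10 : Bd K (D2 (D2 (fun x => (Ψ x).2))) := q10.mono (by rw [hKdef]; linarith)
  have E1 : ∀ x, D1 (fun x => u (Ψ x)) x = D1 (fun x => (Ψ x).1) x * D1 u (Ψ x)
      + D1 (fun x => (Ψ x).2) x * D2 u (Ψ x) := fun x =>
    D1_comp (v := u) (diff_C2 hu _) (diff_C2 (cd2_of_inf c1) x) (diff_C2 (cd2_of_inf c2) x)
  have E2 : ∀ x, D2 (fun x => u (Ψ x)) x = D2 (fun x => (Ψ x).1) x * D1 u (Ψ x)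
      + D2 (fun x => (Ψ x).2) x * D2 u (Ψ x) := fun x =>
    D2_comp (v := u) (diff_C2 hu _) (diff_C2 (cd2_of_inf c1) x) (diff_C2 (cd2_of_inf c2) x)
  have E3 := D11_comp hu (cd2_of_inf c1) (cd2_of_inf c2)
  have E4 := D12_comp hu (cd2_of_inf c1) (cd2_of_inf c2)
  have E5 := D22_comp hu (cd2_of_inf c1) (cd2_of_inf c2)
  simp only [Prod.mk.eta] at E3 E4 E5
  have m2 : ∀ {a b : ℝ}, |a| ≤ K → |b| ≤ M → |a * b| ≤ K * M := by
    intro a b ha hb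
    rw [abs_mul]; exact mul_le_mul ha hb (abs_nonneg _) hK0
  have m3 : ∀ {a b c : ℝ}, |a| ≤ K → |b| ≤ K → |c| ≤ M → |a * b * c| ≤ K ^ 2 * M := by
    intro a b c ha hb hc
    rw [abs_mul, abs_mul, sq]
    exact mul_le_mul (mul_le_mul ha hb (abs_nonneg _) hK0) hc (abs_nonneg _) (by positivity)
  have hKM : 0 ≤ K * M := by positivity
  have hKKM : 0 ≤ K ^ 2 * M := by positivity
  have hexp : (4 * K ^ 2 + 2 * K + 1) * M = 4 * (K ^ 2 * M) + 2 * (K * M) + M := by ring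
  rw [hexp]
  refine ⟨fun y hy => ?_, fun y hy => ?_, fun y hy => ?_, fun y hy => ?_, fun y hy => ?_,
    fun y hy => ?_⟩
  · refine (hM _ (h.mem_closure hy)).1.trans ?_
    linarith
  · obtain ⟨h0, h1, h2, h11, h12, h22⟩ := hM _ (h.mem_closure hy)
    rw [E1 y]
    have := abs_add_le (D1 (fun x => (Ψ x).1) y * D1 u (Ψ y)) (D1 (fun x => (Ψ x).2) y * D2 u (Ψ y))
    have t1 := m2 (B1 y hy) h1
    have t2 := m2 (B2 y hy) h2
    linarith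
  · obtain ⟨h0, h1, h2, h11, h12, h22⟩ := hM _ (h.mem_closure hy)
    rw [E2 y]
    have := abs_add_le (D2 (fun x => (Ψ x).1) y * D1 u (Ψ y)) (D2 (fun x => (Ψ x).2) y * D2 u (Ψ y))
    have t1 := m2 (B3 y hy) h1
    have t2 := m2 (B4 y hy) h2
    linarith
  · obtain ⟨h0, h1, h2, h11, h12, h22⟩ := hM _ (h.mem_closure hy)
    rw [E3 y]
    have t1 := abs_le.1 (m3 (B1 y hy) (B1 y hy) h11)
    have t2 := abs_le.1 (m3 (B1 y hy) (B2 y hy) h12)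
    have t3 := abs_le.1 (m3 (B2 y hy) (B2 y hy) h22)
    have t4 := abs_le.1 (m2 (B5 y hy) h1)
    have t5 := abs_le.1 (m2 (B6 y hy) h2)
    rw [abs_le]
    constructor <;> linarith
  · obtain ⟨h0, h1, h2, h11, h12, h22⟩ := hM _ (h.mem_closure hy)
    rw [E4 y]
    have t1 := abs_le.1 (m3 (B1 y hy) (B3 y hy) h11)
    have t2 := abs_le.1 (m3 (B1 y hy) (B4 y hy) h12)
    have t2' := abs_le.1 (m3 (B2 y hy) (B3 y hy) h12)
    have t3 := abs_le.1 (m3 (B2 y hy) (B4 y hy) h22)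
    have t4 := abs_le.1 (m2 (B7 y hy) h1)
    have t5 := abs_le.1 (m2 (B8 y hy) h2)
    rw [abs_le]
    constructor <;> linarith
  · obtain ⟨h0, h1, h2, h11, h12, h22⟩ := hM _ (h.mem_closure hy)
    rw [E5 y]
    have t1 := abs_le.1 (m3 (B3 y hy) (B3 y hy) h11)
    have t2 := abs_le.1 (m3 (B3 y hy) (B4 y hy) h12)
    have t3 := abs_le.1 (m3 (B4 y hy) (B4 y hy) h22)
    have t4 := abs_le.1 (m2 (B9 y hy) h1)
    have t5 := abs_le.1 (m2 (B10 y hy) h2)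
    rw [abs_le]
    constructor <;> linarith

end AQ
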