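import Mathlib

/-! Abstract method of continuity for `(α + A v)(β + B v) = 1` (module N). -/

namespace AQ

open Set Filter Topology Function

theorem abstract_continuity {X Y : Type*} [NormedAddCommGroup X] [NormedSpace ℝ X]
    [CompleteSpace X] [NormedCommRing Y] [NormedAlgebra ℝ Y] [CompleteSpace Y]
    (A B : X →L[ℝ] Y) (α0 α1 β0 β1 : Y) (Pos : Set Y) (hPos : IsOpen Pos)
    (hcl : ∀ a ∈ closure Pos, ∀ b ∈ closure Pos, a * b = 1 → a ∈ Pos ∧ b ∈ Pos)
    (hsurj : ∀ a ∈ Pos, ∀ b ∈ Pos, Function.Surjective (fun v : X => b * A v + a * B v))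
    (C : ℝ) (hlip : ∀ t ∈ Icc (0 : ℝ) 1, ∀ s ∈ Icc (0 : ℝ) 1, ∀ v w : X,
      ((1 - t) • α0 + t • α1 + A v ∈ Pos ∧ (1 - t) • β0 + t • β1 + B v ∈ Pos ∧
        ((1 - t) • α0 + t • α1 + A v) * ((1 - t) • β0 + t • β1 + B v) = 1) →
      ((1 - s) • α0 + s • α1 + A w ∈ Pos ∧ (1 - s) • β0 + s • β1 + B w ∈ Pos ∧
        ((1 - s) • α0 + s • α1 + A w) * ((1 - s) • β0 + s • β1 + B w) = 1) →
      ‖v - w‖ ≤ C * |t - s| * (1 + ‖v‖ + ‖w‖))
    (h0 : ∃ v : X, α0 + A v ∈ Pos ∧ β0 + B v ∈ Pos ∧ (α0 + A v) * (β0 + B v) = 1) :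
    ∃ v : X, α1 + A v ∈ Pos ∧ β1 + B v ∈ Pos ∧ (α1 + A v) * (β1 + B v) = 1 := by
  -- the two affine maps
  set a : X × ℝ → Y := fun p => (1 - p.2) • α0 + p.2 • α1 + A p.1 with ha
  set b : X × ℝ → Y := fun p => (1 - p.2) • β0 + p.2 • β1 + B p.1 with hb
  have hac : Continuous a := by
    have : Continuous fun p : X × ℝ => A p.1 := A.continuous.comp continuous_fst
    simp only [ha]; fun_prop
  have hbc : Continuous b := by
    have : Continuous fun p : X × ℝ => B p.1 := B.continuous.comp continuous_fst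
    simp only [hb]; fun_prop
  let La : X × ℝ →L[ℝ] Y := A.comp (ContinuousLinearMap.fst ℝ X ℝ)
    + (ContinuousLinearMap.snd ℝ X ℝ).smulRight (α1 - α0)
  let Lb : X × ℝ →L[ℝ] Y := B.comp (ContinuousLinearMap.fst ℝ X ℝ)
    + (ContinuousLinearMap.snd ℝ X ℝ).smulRight (β1 - β0)
  have hda : ∀ p, HasStrictFDerivAt a La p := by
    intro p
    have h1 := La.hasStrictFDerivAt (x := p)
    have h2 := h1.const_add α0
    have e : (fun x => α0 + La x) = a := by
      funext q
      simp only [La, ha, add_apply, ContinuousLinearMap.comp_apply,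
        ContinuousLinearMap.smulRight_apply, ContinuousLinearMap.coe_fst',
        ContinuousLinearMap.coe_snd']
      module
    rw [e] at h2
    exact h2
  have hdb : ∀ p, HasStrictFDerivAt b Lb p := by
    intro p
    have h1 := Lb.hasStrictFDerivAt (x := p)
    have h2 := h1.const_add β0
    have e : (fun x => β0 + Lb x) = b := by
      funext q
      simp only [Lb, hb, add_apply, ContinuousLinearMap.comp_apply,
        ContinuousLinearMap.smulRight_apply, ContinuousLinearMap.coe_fst',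
        ContinuousLinearMap.coe_snd']
      module
    rw [e] at h2
    exact h2
  let s : Set ℝ := {t | ∃ v : X, a (v, t) ∈ Pos ∧ b (v, t) ∈ Pos ∧ a (v, t) * b (v, t) = 1}
  have h0s : (0 : ℝ) ∈ s := by
    obtain ⟨v, h1, h2, h3⟩ := h0
    have e1 : a (v, 0) = α0 + A v := by simp [ha]
    have e2 : b (v, 0) = β0 + B v := by simp [hb]
    refine ⟨v, ?_, ?_, ?_⟩
    · rw [e1]; exact h1
    · rw [e2]; exact h2
    · rw [e1, e2]; exact h3
  have key : (1 : ℝ) ∈ s := by
    refine IsClosed.mem_of_ge_of_forall_exists_gt (a := (0 : ℝ)) (b := 1) ?_ h0s (by norm_num) ?_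
    · -- closedness
      apply IsSeqClosed.isClosed
      intro t t₀ ht htt
      choose v hv using fun n => (ht n).1
      have hI : ∀ n, t n ∈ Icc (0 : ℝ) 1 := fun n => (ht n).2
      set D : ℝ := max C 0 with hD
      have hD0 : 0 ≤ D := le_max_right _ _
      have hl : ∀ m n, ‖v m - v n‖ ≤ D * |t m - t n| * (1 + ‖v m‖ + ‖v n‖) := by
        intro m n
        refine (hlip (t m) (hI m) (t n) (hI n) (v m) (v n) (hv m) (hv n)).trans ?_
        have h1 : 0 ≤ |t m - t n| * (1 + ‖v m‖ + ‖v n‖) := by positivity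
        rw [mul_assoc, mul_assoc]
        exact mul_le_mul_of_nonneg_right (le_max_left _ _) h1
      have hcau : CauchySeq t := htt.cauchySeq
      rw [Metric.cauchySeq_iff] at hcau
      obtain ⟨n₀, hn₀⟩ := hcau (1 / (4 * (D + 1))) (by positivity)
      have hbd : ∀ m ≥ n₀, ‖v m‖ ≤ 2 * ‖v n₀‖ + 1 := by
        intro m hm
        have h1 := hl m n₀
        have h2 := hn₀ m hm n₀ le_rfl
        rw [Real.dist_eq] at h2
        have h3 : D * |t m - t n₀| ≤ 1 / 4 := by
          calc D * |t m - t n₀| ≤ (D + 1) * (1 / (4 * (D + 1))) := by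
                apply mul_le_mul (by linarith) h2.le (abs_nonneg _) (by linarith)
            _ = 1 / 4 := by field_simp
        have h4 : ‖v m‖ ≤ ‖v m - v n₀‖ + ‖v n₀‖ := by
          simpa using norm_add_le (v m - v n₀) (v n₀)
        have h5 : 0 ≤ 1 + ‖v m‖ + ‖v n₀‖ := by positivity
        have h6 : ‖v m - v n₀‖ ≤ 1 / 4 * (1 + ‖v m‖ + ‖v n₀‖) :=
          h1.trans (mul_le_mul_of_nonneg_right h3 h5)
        have := norm_nonneg (v n₀)
        linarith
      set R : ℝ := 1 + 2 * (2 * ‖v n₀‖ + 1) with hR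
      have hR0 : 0 ≤ R := by positivity
      have hcv : CauchySeq v := by
        rw [Metric.cauchySeq_iff]
        intro ε hε
        have hcau : CauchySeq t := htt.cauchySeq
        rw [Metric.cauchySeq_iff] at hcau
        obtain ⟨n₁, hn₁⟩ := hcau (ε / (D * R + 1)) (by positivity)
        refine ⟨max n₀ n₁, fun m hm n hn => ?_⟩
        have hm0 := hbd m ((le_max_left _ _).trans hm)
        have hn0 := hbd n ((le_max_left _ _).trans hn)
        have h2 := hn₁ m ((le_max_right _ _).trans hm) n ((le_max_right _ _).trans hn)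
        rw [Real.dist_eq] at h2
        rw [dist_eq_norm]
        calc ‖v m - v n‖ ≤ D * |t m - t n| * (1 + ‖v m‖ + ‖v n‖) := hl m n
          _ ≤ D * |t m - t n| * R := by
              apply mul_le_mul_of_nonneg_left _ (by positivity)
              linarith
          _ = (D * R) * |t m - t n| := by ring
          _ ≤ (D * R) * (ε / (D * R + 1)) := by gcongr
          _ < ε := by
              rw [mul_div_assoc', div_lt_iff₀ (by positivity)]
              nlinarith
      obtain ⟨w, hw⟩ := cauchySeq_tendsto_of_complete hcv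
      have hp : Tendsto (fun n => (v n, t n)) atTop (𝓝 (w, t₀)) := hw.prodMk_nhds htt
      have hta : Tendsto (fun n => a (v n, t n)) atTop (𝓝 (a (w, t₀))) :=
        (hac.tendsto _).comp hp
      have htb : Tendsto (fun n => b (v n, t n)) atTop (𝓝 (b (w, t₀))) :=
        (hbc.tendsto _).comp hp
      have ha' : a (w, t₀) ∈ closure Pos :=
        mem_closure_of_tendsto hta (Eventually.of_forall fun n => (hv n).1)
      have hb' : b (w, t₀) ∈ closure Pos :=
        mem_closure_of_tendsto htb (Eventually.of_forall fun n => (hv n).2.1)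
      have hprod : a (w, t₀) * b (w, t₀) = 1 := by
        have h1 := hta.mul htb
        have h2 : (fun n => a (v n, t n) * b (v n, t n)) = fun _ => (1 : Y) :=
          funext fun n => (hv n).2.2
        rw [h2] at h1
        exact (tendsto_nhds_unique h1 tendsto_const_nhds)
      obtain ⟨p1, p2⟩ := hcl _ ha' _ hb' hprod
      exact ⟨⟨w, p1, p2, hprod⟩, isClosed_Icc.mem_of_tendsto htt (Eventually.of_forall hI)⟩
    · -- openness
      rintro t ⟨⟨v, h1, h2, h3⟩, ht⟩
      have hF : HasStrictFDerivAt (fun p : X × ℝ => (a p * b p, p.2))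
          ((a (v, t) • Lb + b (v, t) • La).prod (ContinuousLinearMap.snd ℝ X ℝ)) (v, t) :=
        ((hda (v, t)).fun_mul (hdb (v, t))).prodMk hasStrictFDerivAt_snd
      have hrange : ((a (v, t) • Lb + b (v, t) • La).prod
          (ContinuousLinearMap.snd ℝ X ℝ)).range = ⊤ := by
        rw [LinearMap.range_eq_top]
        rintro ⟨y, r⟩
        obtain ⟨dv, hdv⟩ := hsurj _ h1 _ h2
          (y - r • (a (v, t) * (β1 - β0) + b (v, t) * (α1 - α0)))
        refine ⟨(dv, r), ?_⟩
        simp only at hdv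
        simp only [La, Lb, ContinuousLinearMap.coe_coe, ContinuousLinearMap.prod_apply, add_apply,
          smul_apply, ContinuousLinearMap.comp_apply,
          ContinuousLinearMap.smulRight_apply, ContinuousLinearMap.coe_fst',
          ContinuousLinearMap.coe_snd', smul_eq_mul, Prod.mk.injEq, and_true]
        rw [mul_add, mul_add, mul_smul_comm, mul_smul_comm]
        have e : a (v, t) * B dv + r • (a (v, t) * (β1 - β0)) + (b (v, t) * A dv
            + r • (b (v, t) * (α1 - α0))) = (b (v, t) * A dv + a (v, t) * B dv)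
            + r • (a (v, t) * (β1 - β0) + b (v, t) * (α1 - α0)) := by
          rw [smul_add]; abel
        rw [e, hdv]
        abel
      have hmap := hF.map_nhds_eq_of_surj hrange
      have hopen : IsOpen {p : X × ℝ | a p ∈ Pos ∧ b p ∈ Pos} :=
        (hPos.preimage hac).inter (hPos.preimage hbc)
      have hmem : {p : X × ℝ | a p ∈ Pos ∧ b p ∈ Pos} ∈ 𝓝 (v, t) :=
        hopen.mem_nhds ⟨h1, h2⟩
      have him : (fun p : X × ℝ => (a p * b p, p.2)) '' {p : X × ℝ | a p ∈ Pos ∧ b p ∈ Pos}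
          ∈ 𝓝 ((1 : Y), t) := by
        have h4 := image_mem_map (m := fun p : X × ℝ => (a p * b p, p.2)) hmem
        rw [hmap] at h4
        simpa only [h3] using h4
      have hc : Tendsto (fun r : ℝ => ((1 : Y), r)) (𝓝[>] t) (𝓝 ((1 : Y), t)) := by
        have : Tendsto (fun r : ℝ => ((1 : Y), r)) (𝓝 t) (𝓝 ((1 : Y), t)) :=
          Continuous.tendsto (by fun_prop) t
        exact this.mono_left nhdsWithin_le_nhds
      have h5 : (fun r : ℝ => ((1 : Y), r)) ⁻¹' ((fun p : X × ℝ => (a p * b p, p.2)) ''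
          {p : X × ℝ | a p ∈ Pos ∧ b p ∈ Pos}) ∈ 𝓝[>] t := hc him
      have h6 : Ioc t 1 ∈ 𝓝[>] t := Ioc_mem_nhdsGT ht.2
      obtain ⟨r, hr1, hr2⟩ := Filter.nonempty_of_mem (inter_mem h5 h6)
      obtain ⟨p, ⟨hp1, hp2⟩, hp3⟩ := hr1
      simp only [Prod.mk.injEq] at hp3
      obtain ⟨hp3, hp4⟩ := hp3
      refine ⟨r, ⟨p.1, ?_⟩, hr2⟩
      rw [← hp4]
      exact ⟨hp1, hp2, hp3⟩
  obtain ⟨v, h1, h2, h3⟩ := key
  have e1 : a (v, 1) = α1 + A v := by simp [ha]
  have e2 : b (v, 1) = β1 + B v := by simp [hb]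
  rw [e1] at h1 h3
  rw [e2] at h2 h3
  exact ⟨v, h1, h2, h3⟩

end AQ
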