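import Pool.Agent.Lib_helper44.AQ.Basic
import Pool.Agent.Lib_helper44.AP.Ext
import Pool.Agent.Lib_helper65.AQ.Chain

/-! Completeness of `C^{3,α}` of the closed disc (module P). -/

namespace AQ

open AP Set Filter Topology Function AQ65
open scoped ContDiff

section P

variable {α M C : ℝ} {f f1 f2 g : ℝ × ℝ → ℝ} {q : ℕ → ℝ × ℝ → ℝ}

/-- first order Taylor inequality on the disc -/
lemma taylor_disc (hα0 : 0 < α) (hf : ContDiff ℝ 1 f) (h1 : N0 α M (D1 f))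
    (h2 : N0 α M (D2 f)) : ∀ x ∈ Disc, ∀ y ∈ Disc,
    |f y - f x - (D1 f x * (y.1 - x.1) + D2 f x * (y.2 - x.2))| ≤ 2 * M * dist x y ^ (1 + α) := by
  intro x hx y hy
  have hM := h1.nonneg
  have hseg : ∀ t ∈ Icc (0 : ℝ) 1, x + t • (y - x) ∈ Disc := fun t ht =>
    disc_convex.add_smul_sub_mem hx hy ht
  have hd : ∀ t ∈ Icc (0 : ℝ) 1, dist (x + t • (y - x)) x ≤ dist x y := by
    intro t ht
    rw [dist_eq_norm, add_sub_cancel_left, norm_smul, Real.norm_eq_abs, abs_of_nonneg ht.1,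
      dist_eq_norm, norm_sub_rev x y]
    have := norm_nonneg (y - x)
    nlinarith [ht.2]
  have key := Pool.Agent.Lib44.BU.taylor1 hf (p := x) (q := y) (a := D1 f x) (b := D2 f x)
    (E := M * dist x y ^ α)
    (fun t ht => (h1.2 _ (hseg t ht) x hx).trans (by
      gcongr
      exact hd t ht))
    (fun t ht => (h2.2 _ (hseg t ht) x hx).trans (by
      gcongr
      exact hd t ht))
  refine key.trans (le_of_eq ?_)
  rcases (dist_nonneg (x := x) (y := y)).eq_or_lt with h | h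
  · rw [← h, Real.zero_rpow hα0.ne', Real.zero_rpow (by linarith)]; ring
  · rw [Real.rpow_add h, Real.rpow_one]; ring

/-- the linear form with coefficients `a`, `b` -/
noncomputable def Lf (a b : ℝ) : ℝ × ℝ →L[ℝ] ℝ :=
  a • ContinuousLinearMap.fst ℝ ℝ ℝ + b • ContinuousLinearMap.snd ℝ ℝ ℝ

lemma Lf_apply (a b : ℝ) (v : ℝ × ℝ) : Lf a b v = a * v.1 + b * v.2 := by
  simp [Lf]

lemma Lf_fderiv (f : ℝ × ℝ → ℝ) (x : ℝ × ℝ) : fderiv ℝ f x = Lf (D1 f x) (D2 f x) := by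
  ext
  · simp [Lf, D1]
  · simp [Lf, D2]

lemma Lf_inj {a b a' b' : ℝ} (h : Lf a b = Lf a' b') : a = a' ∧ b = b' := by
  constructor
  · have := congrArg (fun l => l ((1 : ℝ), (0 : ℝ))) h
    simpa [Lf] using this
  · have := congrArg (fun l => l ((0 : ℝ), (1 : ℝ))) h
    simpa [Lf] using this

lemma hasF_of_taylor {a b : ℝ} {x : ℝ × ℝ} (hα0 : 0 < α)
    (h : ∀ y ∈ Disc, |f y - f x - (a * (y.1 - x.1) + b * (y.2 - x.2))| ≤ C * dist x y ^ (1 + α)) :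
    HasFDerivWithinAt f (Lf a b) Disc x := by
  apply HasFDerivWithinAt.of_isLittleO
  rw [Asymptotics.isLittleO_iff]
  intro c hc
  have ht : Tendsto (fun y : ℝ × ℝ => |C| * dist x y ^ α) (𝓝[Disc] x) (𝓝 0) := by
    have h1 : Tendsto (fun y : ℝ × ℝ => |C| * dist x y ^ α) (𝓝 x) (𝓝 (|C| * dist x x ^ α)) := by
      have hc2 : Continuous fun y : ℝ × ℝ => |C| * dist x y ^ α :=
        continuous_const.mul ((continuous_const.dist continuous_id).rpow_const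
          fun _ => Or.inr hα0.le)
      exact hc2.tendsto x
    rw [dist_self, Real.zero_rpow hα0.ne', mul_zero] at h1
    exact h1.mono_left nhdsWithin_le_nhds
  filter_upwards [ht.eventually (gt_mem_nhds hc), self_mem_nhdsWithin] with y hy hyD
  have h1 := h y hyD
  rw [Lf_apply, Real.norm_eq_abs, ← dist_eq_norm, dist_comm y x]
  simp only [Prod.fst_sub, Prod.snd_sub]
  refine h1.trans ?_
  rcases (dist_nonneg (x := x) (y := y)).eq_or_lt with h0 | h0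
  · rw [← h0, Real.zero_rpow (by linarith)]; simp
  · rw [Real.rpow_add h0, Real.rpow_one]
    have h2 : C * dist x y ^ α ≤ |C| * dist x y ^ α :=
      mul_le_mul_of_nonneg_right (le_abs_self C) (Real.rpow_nonneg h0.le _)
    nlinarith

/-- the limit of functions with uniform Taylor inequalities -/
lemma lim_step (hα0 : 0 < α) (ht : ∀ n, ∀ x ∈ Disc, ∀ y ∈ Disc,
      |q n y - q n x - (D1 (q n) x * (y.1 - x.1) + D2 (q n) x * (y.2 - x.2))|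
        ≤ C * dist x y ^ (1 + α))
    (h0 : ∀ x ∈ Disc, Tendsto (fun n => q n x) atTop (𝓝 (f x)))
    (h1 : ∀ x ∈ Disc, Tendsto (fun n => D1 (q n) x) atTop (𝓝 (f1 x)))
    (h2 : ∀ x ∈ Disc, Tendsto (fun n => D2 (q n) x) atTop (𝓝 (f2 x))) :
    ∀ x ∈ Disc, HasFDerivWithinAt f (Lf (f1 x) (f2 x)) Disc x := by
  intro x hx
  apply hasF_of_taylor hα0
  intro y hy
  have hl := (((h0 y hy).sub (h0 x hx)).sub (((h1 x hx).mul_const (y.1 - x.1)).add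
    ((h2 x hx).mul_const (y.2 - x.2)))).abs
  exact le_of_tendsto hl (Eventually.of_forall fun n => ht n x hx y hy)

lemma uniqueDisc : UniqueDiffOn ℝ Disc := by
  have := Pool.Agent.Lib44.AP.uniqueDiffOn_disc
  rw [Pool.Agent.Lib44.AP.disc_eq] at this
  exact this

lemma cdo_succ {k : ℕ} (hf : ∀ x ∈ Disc, HasFDerivWithinAt f (Lf (f1 x) (f2 x)) Disc x)
    (h1 : ContDiffOn ℝ k f1 Disc) (h2 : ContDiffOn ℝ k f2 Disc) :
    ContDiffOn ℝ (k + 1 : ℕ) f Disc := by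
  have e : ContDiffOn ℝ ((k : WithTop ℕ∞) + 1) f Disc := by
    refine contDiffOn_succ_of_fderivWithin (fun x hx => (hf x hx).differentiableWithinAt)
      (by simp) ?_
    have h3 : ContDiffOn ℝ k (fun x => Lf (f1 x) (f2 x)) Disc := by
      simp only [Lf]
      exact (h1.smul contDiffOn_const).add (h2.smul contDiffOn_const)
    exact h3.congr fun x hx => (hf x hx).fderivWithin (uniqueDisc x hx)
  exact_mod_cast e

lemma Hol.continuousOn (hα0 : 0 < α) (h : Hol α M f) : ContinuousOn f Disc := by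
  intro x hx
  rw [ContinuousWithinAt, tendsto_iff_dist_tendsto_zero]
  have ht : Tendsto (fun y : ℝ × ℝ => M * dist y x ^ α) (𝓝[Disc] x) (𝓝 0) := by
    have h1 : Tendsto (fun y : ℝ × ℝ => M * dist y x ^ α) (𝓝 x) (𝓝 (M * dist x x ^ α)) := by
      have hc2 : Continuous fun y : ℝ × ℝ => M * dist y x ^ α :=
        continuous_const.mul ((continuous_id.dist continuous_const).rpow_const
          fun _ => Or.inr hα0.le)
      exact hc2.tendsto x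
    rw [dist_self, Real.zero_rpow hα0.ne', mul_zero] at h1
    exact h1.mono_left nhdsWithin_le_nhds
  refine squeeze_zero' (Eventually.of_forall fun _ => dist_nonneg) ?_ ht
  filter_upwards [self_mem_nhdsWithin] with y hy
  rw [Real.dist_eq]
  exact h y hy x hx

/-- closedness under pointwise convergence -/
lemma Bd.lim (h : ∀ n, Bd M (q n))
    (h0 : ∀ x ∈ Disc, Tendsto (fun n => q n x) atTop (𝓝 (f x))) : Bd M f := fun x hx =>
  le_of_tendsto (h0 x hx).abs (Eventually.of_forall fun n => h n x hx)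

lemma Hol.lim (h : ∀ n, Hol α M (q n))
    (h0 : ∀ x ∈ Disc, Tendsto (fun n => q n x) atTop (𝓝 (f x))) : Hol α M f :=
  fun x hx y hy => le_of_tendsto ((h0 x hx).sub (h0 y hy)).abs
    (Eventually.of_forall fun n => h n x hx y hy)

lemma N0.lim (h : ∀ n, N0 α M (q n))
    (h0 : ∀ x ∈ Disc, Tendsto (fun n => q n x) atTop (𝓝 (f x))) : N0 α M f :=
  ⟨Bd.lim (fun n => (h n).1) h0, Hol.lim (fun n => (h n).2) h0⟩

/-- uniformly Cauchy on the disc -/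
def CB (q : ℕ → ℝ × ℝ → ℝ) : Prop :=
  ∀ ε > 0, ∃ n₀, ∀ m ≥ n₀, ∀ n ≥ n₀, Bd ε (fun x => q m x - q n x)
/-- Cauchy -/
def CN1 (q : ℕ → ℝ × ℝ → ℝ) : Prop := CB q ∧ CB (fun n => D1 (q n)) ∧ CB (fun n => D2 (q n))
/-- Cauchy -/
def CN2 (q : ℕ → ℝ × ℝ → ℝ) : Prop := CB q ∧ CN1 (fun n => D1 (q n)) ∧ CN1 (fun n => D2 (q n))
/-- Cauchy -/
def CN3 (q : ℕ → ℝ × ℝ → ℝ) : Prop := CB q ∧ CN2 (fun n => D1 (q n)) ∧ CN2 (fun n => D2 (q n))

lemma CB.exists_lim (h : CB q) :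
    ∃ f : ℝ × ℝ → ℝ, ∀ x ∈ Disc, Tendsto (fun n => q n x) atTop (𝓝 (f x)) := by
  have : ∀ x : ℝ × ℝ, ∃ l : ℝ, x ∈ Disc → Tendsto (fun n => q n x) atTop (𝓝 l) := by
    intro x
    by_cases hx : x ∈ Disc
    · have hc : CauchySeq fun n => q n x := by
        rw [Metric.cauchySeq_iff]
        intro ε hε
        obtain ⟨n₀, hn₀⟩ := h (ε / 2) (by positivity)
        refine ⟨n₀, fun m hm n hn => ?_⟩
        have := hn₀ m hm n hn x hx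
        rw [Real.dist_eq]
        simp only at this
        linarith
      obtain ⟨l, hl⟩ := cauchySeq_tendsto_of_complete hc
      exact ⟨l, fun _ => hl⟩
    · exact ⟨0, fun h => absurd h hx⟩
  choose f hf using this
  exact ⟨f, hf⟩

lemma cN1_of (hq : ∀ n, Differentiable ℝ (q n))
    (h : ∀ ε > 0, ∃ n₀, ∀ m ≥ n₀, ∀ n ≥ n₀, N1 α ε (fun x => q m x - q n x)) : CN1 q := by
  refine ⟨fun ε hε => ?_, fun ε hε => ?_, fun ε hε => ?_⟩
  all_goals obtain ⟨n₀, hn₀⟩ := h ε hε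
  all_goals refine ⟨n₀, fun m hm n hn => ?_⟩
  · exact (hn₀ m hm n hn).1
  · have := (hn₀ m hm n hn).2.1.1
    rw [D1_subf (hq m) (hq n)] at this
    exact this
  · have := (hn₀ m hm n hn).2.2.1
    rw [D2_subf (hq m) (hq n)] at this
    exact this

lemma cN2_of (hq : ∀ n, ContDiff ℝ 2 (q n))
    (h : ∀ ε > 0, ∃ n₀, ∀ m ≥ n₀, ∀ n ≥ n₀, N2 α ε (fun x => q m x - q n x)) : CN2 q := by
  refine ⟨fun ε hε => ?_, ?_, ?_⟩
  · obtain ⟨n₀, hn₀⟩ := h ε hε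
    exact ⟨n₀, fun m hm n hn => (hn₀ m hm n hn).1⟩
  · refine cN1_of (α := α) (fun n => diff_D1 (hq n)) fun ε hε => ?_
    obtain ⟨n₀, hn₀⟩ := h ε hε
    refine ⟨n₀, fun m hm n hn => ?_⟩
    have := (hn₀ m hm n hn).2.1
    rw [D1_subf (diff_C2 (hq m)) (diff_C2 (hq n))] at this
    exact this
  · refine cN1_of (α := α) (fun n => diff_D2 (hq n)) fun ε hε => ?_
    obtain ⟨n₀, hn₀⟩ := h ε hε
    refine ⟨n₀, fun m hm n hn => ?_⟩
    have := (hn₀ m hm n hn).2.2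
    rw [D2_subf (diff_C2 (hq m)) (diff_C2 (hq n))] at this
    exact this

lemma cd2_D1 (h : ContDiff ℝ 3 f) : ContDiff ℝ 2 (D1 f) := cd_D1 (n := 2) (by simpa using h)
lemma cd2_D2 (h : ContDiff ℝ 3 f) : ContDiff ℝ 2 (D2 f) := cd_D2 (n := 2) (by simpa using h)
lemma cd1_D1 (h : ContDiff ℝ 2 f) : ContDiff ℝ 1 (D1 f) := cd_D1 (n := 1) (by simpa using h)
lemma cd1_D2 (h : ContDiff ℝ 2 f) : ContDiff ℝ 1 (D2 f) := cd_D2 (n := 1) (by simpa using h)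

lemma cN3_of (hq : ∀ n, ContDiff ℝ 3 (q n))
    (h : ∀ ε > 0, ∃ n₀, ∀ m ≥ n₀, ∀ n ≥ n₀, N3 α ε (fun x => q m x - q n x)) : CN3 q := by
  have hd : ∀ n, Differentiable ℝ (q n) := fun n => (hq n).differentiable (by norm_num)
  refine ⟨fun ε hε => ?_, ?_, ?_⟩
  · obtain ⟨n₀, hn₀⟩ := h ε hε
    exact ⟨n₀, fun m hm n hn => (hn₀ m hm n hn).1⟩
  · refine cN2_of (α := α) (fun n => cd2_D1 (hq n)) fun ε hε => ?_
    obtain ⟨n₀, hn₀⟩ := h ε hε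
    refine ⟨n₀, fun m hm n hn => ?_⟩
    have := (hn₀ m hm n hn).2.1
    rw [D1_subf (hd m) (hd n)] at this
    exact this
  · refine cN2_of (α := α) (fun n => cd2_D2 (hq n)) fun ε hε => ?_
    obtain ⟨n₀, hn₀⟩ := h ε hε
    refine ⟨n₀, fun m hm n hn => ?_⟩
    have := (hn₀ m hm n hn).2.2
    rw [D2_subf (hd m) (hd n)] at this
    exact this

lemma N2.n0 (hα0 : 0 < α) (hα1 : α < 1) (hf : Differentiable ℝ f) (h : N2 α M f) :
    N0 α (4 * M) f := N0.of_bd hα0 hα1 hf h.1 h.2.1.1 h.2.2.1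

/-- existence of `Cᵏ` limits, `k = 1` -/
lemma lim1 (hα0 : 0 < α) (hq : ∀ n, ContDiff ℝ 1 (q n)) (hM : ∀ n, N1 α M (q n)) (hC : CN1 q) :
    ∃ f : ℝ × ℝ → ℝ, ContDiffOn ℝ (1 : ℕ) f Disc ∧
      ∀ x ∈ Disc, Tendsto (fun n => q n x) atTop (𝓝 (f x)) := by
  obtain ⟨f, hf⟩ := hC.1.exists_lim
  obtain ⟨f1, hf1⟩ := hC.2.1.exists_lim
  obtain ⟨f2, hf2⟩ := hC.2.2.exists_lim
  refine ⟨f, ?_, hf⟩
  have hF := lim_step hα0 (fun n => taylor_disc hα0 (hq n) (hM n).2.1 (hM n).2.2) hf hf1 hf2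
  refine cdo_succ (k := 0) hF ?_ ?_
  · have : ContinuousOn f1 Disc := (N0.lim (fun n => (hM n).2.1) hf1).2.continuousOn hα0
    exact contDiffOn_zero.2 this
  · have : ContinuousOn f2 Disc := (N0.lim (fun n => (hM n).2.2) hf2).2.continuousOn hα0
    exact contDiffOn_zero.2 this

lemma lim2 (hα0 : 0 < α) (hα1 : α < 1) (hq : ∀ n, ContDiff ℝ 2 (q n)) (hM : ∀ n, N2 α M (q n))
    (hC : CN2 q) :
    ∃ f : ℝ × ℝ → ℝ, ContDiffOn ℝ (2 : ℕ) f Disc ∧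
      ∀ x ∈ Disc, Tendsto (fun n => q n x) atTop (𝓝 (f x)) := by
  obtain ⟨f, hf⟩ := hC.1.exists_lim
  obtain ⟨f1, hc1, hf1⟩ := lim1 hα0 (fun n => cd1_D1 (hq n)) (fun n => (hM n).2.1) hC.2.1
  obtain ⟨f2, hc2, hf2⟩ := lim1 hα0 (fun n => cd1_D2 (hq n)) (fun n => (hM n).2.2) hC.2.2
  refine ⟨f, ?_, hf⟩
  have hF := lim_step hα0 (fun n => taylor_disc hα0 ((hq n).of_le (by norm_num))
    ((hM n).2.1.n0 hα0 hα1 (diff_D1 (hq n))) ((hM n).2.2.n0 hα0 hα1 (diff_D2 (hq n)))) hf hf1 hf2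
  exact cdo_succ (k := 1) hF hc1 hc2

lemma lim3 (hα0 : 0 < α) (hα1 : α < 1) (hq : ∀ n, ContDiff ℝ 3 (q n)) (hM : ∀ n, N3 α M (q n))
    (hC : CN3 q) :
    ∃ f : ℝ × ℝ → ℝ, ContDiffOn ℝ (3 : ℕ) f Disc ∧
      ∀ x ∈ Disc, Tendsto (fun n => q n x) atTop (𝓝 (f x)) := by
  obtain ⟨f, hf⟩ := hC.1.exists_lim
  obtain ⟨f1, hc1, hf1⟩ := lim2 hα0 hα1 (fun n => cd2_D1 (hq n)) (fun n => (hM n).2.1) hC.2.1
  obtain ⟨f2, hc2, hf2⟩ := lim2 hα0 hα1 (fun n => cd2_D2 (hq n)) (fun n => (hM n).2.2) hC.2.2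
  refine ⟨f, ?_, hf⟩
  have hF := lim_step hα0 (fun n => taylor_disc hα0 ((hq n).of_le (by norm_num))
    ((hM n).2.1.n0 hα0 hα1 (diff_C2 (cd2_D1 (hq n))))
    ((hM n).2.2.n0 hα0 hα1 (diff_C2 (cd2_D2 (hq n))))) hf hf1 hf2
  exact cdo_succ (k := 2) hF hc1 hc2

/-- convergence of the derivatives -/
lemma dconv (hα0 : 0 < α) (ht : ∀ n, ∀ x ∈ Disc, ∀ y ∈ Disc,
      |q n y - q n x - (D1 (q n) x * (y.1 - x.1) + D2 (q n) x * (y.2 - x.2))|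
        ≤ C * dist x y ^ (1 + α))
    (hg : Differentiable ℝ g)
    (h0 : ∀ x ∈ Disc, Tendsto (fun n => q n x) atTop (𝓝 (g x)))
    (h1 : CB (fun n => D1 (q n))) (h2 : CB (fun n => D2 (q n))) :
    (∀ x ∈ Disc, Tendsto (fun n => D1 (q n) x) atTop (𝓝 (D1 g x))) ∧
    (∀ x ∈ Disc, Tendsto (fun n => D2 (q n) x) atTop (𝓝 (D2 g x))) := by
  obtain ⟨f1, hf1⟩ := h1.exists_lim
  obtain ⟨f2, hf2⟩ := h2.exists_lim
  have hF := lim_step hα0 ht h0 hf1 hf2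
  have he : ∀ x ∈ Disc, f1 x = D1 g x ∧ f2 x = D2 g x := by
    intro x hx
    have e1 := (hF x hx).fderivWithin (uniqueDisc x hx)
    have e2 := (hg x).hasFDerivAt.hasFDerivWithinAt.fderivWithin (uniqueDisc x hx)
    rw [e1, Lf_fderiv] at e2
    exact Lf_inj e2
  refine ⟨fun x hx => ?_, fun x hx => ?_⟩
  · rw [← (he x hx).1]; exact hf1 x hx
  · rw [← (he x hx).2]; exact hf2 x hx

lemma conv1 (hα0 : 0 < α) (hq : ∀ n, ContDiff ℝ 1 (q n)) (hM : ∀ n, N1 α M (q n))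
    (hC : CN1 q) (hg : ContDiff ℝ 1 g)
    (h0 : ∀ x ∈ Disc, Tendsto (fun n => q n x) atTop (𝓝 (g x))) :
    N1 α M g ∧ (∀ x ∈ Disc, Tendsto (fun n => D1 (q n) x) atTop (𝓝 (D1 g x))) ∧
    (∀ x ∈ Disc, Tendsto (fun n => D2 (q n) x) atTop (𝓝 (D2 g x))) := by
  obtain ⟨e1, e2⟩ := dconv hα0 (fun n => taylor_disc hα0 (hq n) (hM n).2.1 (hM n).2.2)
    (hg.differentiable (by norm_num)) h0 hC.2.1 hC.2.2
  exact ⟨⟨Bd.lim (fun n => (hM n).1) h0, N0.lim (fun n => (hM n).2.1) e1,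
    N0.lim (fun n => (hM n).2.2) e2⟩, e1, e2⟩

lemma conv2 (hα0 : 0 < α) (hα1 : α < 1) (hq : ∀ n, ContDiff ℝ 2 (q n)) (hM : ∀ n, N2 α M (q n))
    (hC : CN2 q) (hg : ContDiff ℝ 2 g)
    (h0 : ∀ x ∈ Disc, Tendsto (fun n => q n x) atTop (𝓝 (g x))) :
    N2 α M g ∧ (∀ x ∈ Disc, Tendsto (fun n => D1 (q n) x) atTop (𝓝 (D1 g x))) ∧
    (∀ x ∈ Disc, Tendsto (fun n => D2 (q n) x) atTop (𝓝 (D2 g x))) := by
  obtain ⟨e1, e2⟩ := dconv hα0 (fun n => taylor_disc hα0 ((hq n).of_le (by norm_num))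
    ((hM n).2.1.n0 hα0 hα1 (diff_D1 (hq n))) ((hM n).2.2.n0 hα0 hα1 (diff_D2 (hq n))))
    (hg.differentiable (by norm_num)) h0 hC.2.1.1 hC.2.2.1
  have k1 := conv1 hα0 (fun n => cd1_D1 (hq n)) (fun n => (hM n).2.1) hC.2.1 (cd1_D1 hg) e1
  have k2 := conv1 hα0 (fun n => cd1_D2 (hq n)) (fun n => (hM n).2.2) hC.2.2 (cd1_D2 hg) e2
  exact ⟨⟨Bd.lim (fun n => (hM n).1) h0, k1.1, k2.1⟩, e1, e2⟩

lemma conv3 (hα0 : 0 < α) (hα1 : α < 1) (hq : ∀ n, ContDiff ℝ 3 (q n)) (hM : ∀ n, N3 α M (q n))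
    (hC : CN3 q) (hg : ContDiff ℝ 3 g)
    (h0 : ∀ x ∈ Disc, Tendsto (fun n => q n x) atTop (𝓝 (g x))) :
    N3 α M g ∧ (∀ x ∈ Disc, Tendsto (fun n => D1 (q n) x) atTop (𝓝 (D1 g x))) ∧
    (∀ x ∈ Disc, Tendsto (fun n => D2 (q n) x) atTop (𝓝 (D2 g x))) := by
  obtain ⟨e1, e2⟩ := dconv hα0 (fun n => taylor_disc hα0 ((hq n).of_le (by norm_num))
    ((hM n).2.1.n0 hα0 hα1 (diff_C2 (cd2_D1 (hq n))))
    ((hM n).2.2.n0 hα0 hα1 (diff_C2 (cd2_D2 (hq n)))))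
    (hg.differentiable (by norm_num)) h0 hC.2.1.1 hC.2.2.1
  have k1 := conv2 hα0 hα1 (fun n => cd2_D1 (hq n)) (fun n => (hM n).2.1) hC.2.1 (cd2_D1 hg) e1
  have k2 := conv2 hα0 hα1 (fun n => cd2_D2 (hq n)) (fun n => (hM n).2.2) hC.2.2 (cd2_D2 hg) e2
  exact ⟨⟨Bd.lim (fun n => (hM n).1) h0, k1.1, k2.1⟩, e1, e2⟩

end P

/-- module P -/
theorem limit_C3 {α M : ℝ} (hα0 : 0 < α) (hα1 : α < 1) {p : ℕ → ℝ × ℝ → ℝ}
    (hp : ∀ n, ContDiff ℝ 3 (p n)) (hM : ∀ n, N3 α M (p n))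
    (hC : ∀ ε > 0, ∃ n₀, ∀ m ≥ n₀, ∀ n ≥ n₀, N3 α ε (fun x => p m x - p n x)) :
    ∃ g : ℝ × ℝ → ℝ, ContDiff ℝ 3 g ∧ N3 α M g ∧ ∀ x ∈ Disc,
      Tendsto (fun n => p n x) atTop (𝓝 (g x)) ∧
      Tendsto (fun n => D1 (p n) x) atTop (𝓝 (D1 g x)) ∧
      Tendsto (fun n => D2 (p n) x) atTop (𝓝 (D2 g x)) ∧
      Tendsto (fun n => D1 (D1 (p n)) x) atTop (𝓝 (D1 (D1 g) x)) ∧
      Tendsto (fun n => D1 (D2 (p n)) x) atTop (𝓝 (D1 (D2 g) x)) ∧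
      Tendsto (fun n => D2 (D2 (p n)) x) atTop (𝓝 (D2 (D2 g) x)) := by
  have hcn := cN3_of hp hC
  obtain ⟨f, hfc, hf⟩ := lim3 hα0 hα1 hp hM hcn
  obtain ⟨g, hg, hgf⟩ := Pool.Agent.Lib44.AP.exists_extension (f := f) (by exact_mod_cast hfc)
  have h0 : ∀ x ∈ Disc, Tendsto (fun n => p n x) atTop (𝓝 (g x)) := by
    intro x hx
    rw [hgf x hx]
    exact hf x hx
  obtain ⟨hN, e1, e2⟩ := conv3 hα0 hα1 hp hM hcn hg h0
  obtain ⟨-, e11, -⟩ := conv2 hα0 hα1 (fun n => cd2_D1 (hp n)) (fun n => (hM n).2.1) hcn.2.1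
    (cd2_D1 hg) e1
  obtain ⟨-, e12, e22⟩ := conv2 hα0 hα1 (fun n => cd2_D2 (hp n)) (fun n => (hM n).2.2) hcn.2.2
    (cd2_D2 hg) e2
  exact ⟨g, hg, hN, fun x hx => ⟨h0 x hx, e1 x hx, e2 x hx, e11 x hx, e12 x hx, e22 x hx⟩⟩

end AQ
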