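import Pool.Agent.Lib_helper42.AP.Dom

/-! Viscosity solutions of `u₁₁ u₂₂ = 1`: comparison with classical solutions (module Q). -/

namespace AQ

open AP Set Filter Topology

/-- viscosity solutions of `u₁₁ u₂₂ = 1`, `u₁₁, u₂₂ ≥ 0` -/
structure Visc (Ω : Set (ℝ × ℝ)) (w : ℝ × ℝ → ℝ) : Prop where
  sub : ∀ x ∈ Ω, ∀ ψ : ℝ × ℝ → ℝ, ContDiffAt ℝ 2 ψ x → IsLocalMax (fun y => w y - ψ y) x →
    0 ≤ D1 (D1 ψ) x ∧ 0 ≤ D2 (D2 ψ) x ∧ 1 ≤ D1 (D1 ψ) x * D2 (D2 ψ) x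
  sup : ∀ x ∈ Ω, ∀ ψ : ℝ × ℝ → ℝ, ContDiffAt ℝ 2 ψ x → IsLocalMin (fun y => w y - ψ y) x →
    0 ≤ D1 (D1 ψ) x → 0 ≤ D2 (D2 ψ) x → D1 (D1 ψ) x * D2 (D2 ψ) x ≤ 1

section quad

/-- the function `δ |x|²` -/
noncomputable def qd (δ : ℝ) (y : ℝ × ℝ) : ℝ := δ * (y.1 - 0) ^ 2 + δ * (y.2 - 0) ^ 2

lemma qd_cd (δ : ℝ) : ContDiff ℝ 2 (qd δ) := by
  unfold qd; fun_prop

lemma qd_nonneg {δ : ℝ} (h : 0 ≤ δ) (y : ℝ × ℝ) : 0 ≤ qd δ y := by
  unfold qd; positivity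

lemma qd_11 (δ : ℝ) (x : ℝ × ℝ) : D1 (D1 (qd δ)) x = 2 * δ := by
  have h1 : ContDiffAt ℝ 2 (fun y : ℝ × ℝ => (y.1 - 0) ^ 2) x := by fun_prop
  have h2 : ContDiffAt ℝ 2 (fun y : ℝ × ℝ => (y.2 - 0) ^ 2) x := by fun_prop
  have h3 : ContDiffAt ℝ 2 (fun y : ℝ × ℝ => δ * (y.1 - 0) ^ 2) x := by fun_prop
  have h4 : ContDiffAt ℝ 2 (fun y : ℝ × ℝ => δ * (y.2 - 0) ^ 2) x := by fun_prop
  have e := D11_add h3 h4
  rw [D11_const_mul δ h1, D11_const_mul δ h2, D11_sq1, D11_sq2] at e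
  have : D1 (D1 (qd δ)) x = δ * 2 + δ * 0 := e
  rw [this]; ring

lemma qd_22 (δ : ℝ) (x : ℝ × ℝ) : D2 (D2 (qd δ)) x = 2 * δ := by
  have h1 : ContDiffAt ℝ 2 (fun y : ℝ × ℝ => (y.1 - 0) ^ 2) x := by fun_prop
  have h2 : ContDiffAt ℝ 2 (fun y : ℝ × ℝ => (y.2 - 0) ^ 2) x := by fun_prop
  have h3 : ContDiffAt ℝ 2 (fun y : ℝ × ℝ => δ * (y.1 - 0) ^ 2) x := by fun_prop
  have h4 : ContDiffAt ℝ 2 (fun y : ℝ × ℝ => δ * (y.2 - 0) ^ 2) x := by fun_prop
  have e := D22_add h3 h4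
  rw [D22_const_mul δ h1, D22_const_mul δ h2, D22_sq1, D22_sq2] at e
  have : D2 (D2 (qd δ)) x = δ * 0 + δ * 2 := e
  rw [this]; ring

end quad

section main

variable {Ω : Set (ℝ × ℝ)} {u w : ℝ × ℝ → ℝ}

/-- perturbation: if `g` is larger somewhere than on the frontier, `g + δ|x|²` has an interior
maximum for small `δ` -/
lemma exists_interior_max (hΩ : IsOpen Ω) (hb : Bornology.IsBounded Ω) {g : ℝ × ℝ → ℝ}
    (hg : ContinuousOn g (closure Ω)) (hf : ∀ x ∈ frontier Ω, g x = 0) {x₀ : ℝ × ℝ}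
    (hx₀ : x₀ ∈ closure Ω) (hpos : 0 < g x₀) :
    ∃ δ : ℝ, 0 < δ ∧ δ < 1 ∧ ∃ y ∈ Ω, IsLocalMax (fun x => g x + qd δ x) y := by
  have hcomp : IsCompact (closure Ω) := hb.isCompact_closure
  obtain ⟨Q, hQ⟩ := hcomp.exists_bound_of_continuousOn (qd_cd 1).continuous.continuousOn
  have hQ' : ∀ x ∈ closure Ω, qd 1 x ≤ |Q| + 1 := fun x hx => by
    have := (le_abs_self _).trans (hQ x hx)
    have := le_abs_self Q
    linarith
  have hqe : ∀ (δ : ℝ) (x : ℝ × ℝ), qd δ x = δ * qd 1 x := fun δ x => by unfold qd; ring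
  set δ : ℝ := min (1 / 2) (g x₀ / (2 * (|Q| + 1))) with hδ
  have hδ0 : 0 < δ := by
    have : 0 < g x₀ / (2 * (|Q| + 1)) := by positivity
    exact lt_min (by norm_num) this
  have hδ1 : δ < 1 := (min_le_left _ _).trans_lt (by norm_num)
  have hδ2 : δ * (|Q| + 1) < g x₀ := by
    have h1 : δ ≤ g x₀ / (2 * (|Q| + 1)) := min_le_right _ _
    rw [le_div_iff₀ (by positivity)] at h1
    nlinarith [abs_nonneg Q]
  have hcg : ContinuousOn (fun x => g x + qd δ x) (closure Ω) :=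
    hg.add (qd_cd δ).continuous.continuousOn
  obtain ⟨y, hy, hmax⟩ := hcomp.exists_isMaxOn ⟨x₀, hx₀⟩ hcg
  have hyΩ : y ∈ Ω := by
    by_contra hyU
    have hyf : y ∈ frontier Ω := by
      rw [frontier, hΩ.interior_eq]; exact ⟨hy, hyU⟩
    have h1 : g x₀ + qd δ x₀ ≤ g y + qd δ y := hmax hx₀
    have h2 := qd_nonneg hδ0.le x₀
    have h3 : qd δ y ≤ δ * (|Q| + 1) := by
      rw [hqe]; exact mul_le_mul_of_nonneg_left (hQ' y hy) hδ0.le
    rw [hf y hyf] at h1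
    linarith
  refine ⟨δ, hδ0, hδ1, y, hyΩ, ?_⟩
  filter_upwards [hΩ.mem_nhds hyΩ] with z hz
  exact hmax (subset_closure hz)

/-- a classical solution is the only viscosity solution with its boundary values -/
theorem visc_unique (hΩ : IsOpen Ω) (hb : Bornology.IsBounded Ω) (hu : ContDiffOn ℝ 2 u Ω)
    (huc : ContinuousOn u (closure Ω)) (hwc : ContinuousOn w (closure Ω))
    (h1 : ∀ x ∈ Ω, 0 < D1 (D1 u) x) (h2 : ∀ x ∈ Ω, 0 < D2 (D2 u) x)
    (heq : ∀ x ∈ Ω, D1 (D1 u) x * D2 (D2 u) x = 1) (hw : Visc Ω w)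
    (hbd : ∀ x ∈ frontier Ω, w x = u x) : ∀ x ∈ closure Ω, w x = u x := by
  have hcd : ∀ x ∈ Ω, ContDiffAt ℝ 2 u x := fun x hx => (hu x hx).contDiffAt (hΩ.mem_nhds hx)
  intro x₀ hx₀
  rcases lt_trichotomy (w x₀) (u x₀) with hlt | he | hgt
  · -- `u - w` positive somewhere
    exfalso
    obtain ⟨δ, hδ0, hδ1, y, hy, hmax⟩ := exists_interior_max hΩ hb (huc.sub hwc)
      (fun x hx => by simp [hbd x hx]) hx₀ (by simpa using hlt)
    have hq := (qd_cd δ).contDiffAt (x := y)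
    have hmin : IsLocalMin (fun z => w z - (u z + qd δ z)) y := by
      filter_upwards [hmax] with z hz
      simp only [Pi.sub_apply] at hz
      linarith
    have e1 := D11_add (hcd y hy) hq
    have e2 := D22_add (hcd y hy) hq
    rw [qd_11] at e1
    rw [qd_22] at e2
    have p1 := h1 y hy
    have p2 := h2 y hy
    have key := hw.sup y hy (fun z => u z + qd δ z) ((hcd y hy).add hq) hmin
      (by rw [e1]; linarith) (by rw [e2]; linarith)
    rw [e1, e2] at key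
    have := heq y hy
    nlinarith [mul_pos p1 hδ0, mul_pos p2 hδ0, mul_pos hδ0 hδ0]
  · exact he
  · exfalso
    obtain ⟨δ, hδ0, hδ1, y, hy, hmax⟩ := exists_interior_max hΩ hb (hwc.sub huc)
      (fun x hx => by simp [hbd x hx]) hx₀ (by simpa using hgt)
    have hq := (qd_cd δ).contDiffAt (x := y)
    have hmax' : IsLocalMax (fun z => w z - (u z - qd δ z)) y := by
      filter_upwards [hmax] with z hz
      simp only [Pi.sub_apply] at hz
      linarith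
    have e1 := D11_sub (hcd y hy) hq
    have e2 := D22_sub (hcd y hy) hq
    rw [qd_11] at e1
    rw [qd_22] at e2
    have p1 := h1 y hy
    have p2 := h2 y hy
    obtain ⟨k1, k2, k3⟩ := hw.sub y hy (fun z => u z - qd δ z) ((hcd y hy).sub hq) hmax'
    rw [e1, e2] at k3
    have h3 := heq y hy
    have h4 : 2 ≤ D1 (D1 u) y + D2 (D2 u) y := by
      nlinarith [sq_nonneg (D1 (D1 u) y - D2 (D2 u) y), sq_nonneg (D1 (D1 u) y + D2 (D2 u) y)]
    nlinarith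

/-- a classical solution is a viscosity solution -/
theorem classical_visc (hΩ : IsOpen Ω) (hu : ContDiffOn ℝ 2 u Ω)
    (h1 : ∀ x ∈ Ω, 0 < D1 (D1 u) x) (h2 : ∀ x ∈ Ω, 0 < D2 (D2 u) x)
    (heq : ∀ x ∈ Ω, D1 (D1 u) x * D2 (D2 u) x = 1) : Visc Ω u := by
  have hcd : ∀ x ∈ Ω, ContDiffAt ℝ 2 u x := fun x hx => (hu x hx).contDiffAt (hΩ.mem_nhds hx)
  refine ⟨fun x hx ψ hψ hm => ?_, fun x hx ψ hψ hm k1 k2 => ?_⟩
  · have e1 := D11_nonpos_of_isLocalMax ((hcd x hx).sub hψ) hm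
    have e2 := D22_nonpos_of_isLocalMax ((hcd x hx).sub hψ) hm
    rw [D11_sub (hcd x hx) hψ] at e1
    rw [D22_sub (hcd x hx) hψ] at e2
    have p1 := h1 x hx
    have p2 := h2 x hx
    have h3 := heq x hx
    refine ⟨by linarith, by linarith, ?_⟩
    rw [← h3]
    exact mul_le_mul (by linarith) (by linarith) p2.le (by linarith)
  · have hm' : IsLocalMax (fun y => ψ y - u y) x := by
      filter_upwards [hm] with z hz
      linarith
    have e1 := D11_nonpos_of_isLocalMax (hψ.sub (hcd x hx)) hm'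
    have e2 := D22_nonpos_of_isLocalMax (hψ.sub (hcd x hx)) hm'
    rw [D11_sub hψ (hcd x hx)] at e1
    rw [D22_sub hψ (hcd x hx)] at e2
    have h3 := heq x hx
    rw [← h3]
    exact mul_le_mul (by linarith) (by linarith) k2 (by have := h1 x hx; linarith)

/-- local coordinate-convexity: second differences in the coordinate directions are nonnegative -/
def CC (Ω : Set (ℝ × ℝ)) (w : ℝ × ℝ → ℝ) : Prop := ∀ x ∈ Ω, ∀ᶠ t in 𝓝 (0 : ℝ),
  2 * w x ≤ w (x.1 + t, x.2) + w (x.1 - t, x.2) ∧ 2 * w x ≤ w (x.1, x.2 + t) + w (x.1, x.2 - t)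

/-- a function which is convex along the axis-parallel segments in `Ω` is in `CC` -/
lemma CC.of_seg (hΩ : IsOpen Ω)
    (h1 : ∀ y a b : ℝ, (∀ s ∈ Icc a b, (s, y) ∈ Ω) → ConvexOn ℝ (Icc a b) fun s => w (s, y))
    (h2 : ∀ x a b : ℝ, (∀ s ∈ Icc a b, (x, s) ∈ Ω) → ConvexOn ℝ (Icc a b) fun s => w (x, s)) :
    CC Ω w := by
  intro x hx
  obtain ⟨ε, hε, hball⟩ := Metric.isOpen_iff.1 hΩ x hx
  have hev : ∀ᶠ t in 𝓝 (0 : ℝ), |t| < ε := by
    have : Tendsto (fun t : ℝ => |t|) (𝓝 0) (𝓝 |0|) := continuous_abs.tendsto 0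
    rw [abs_zero] at this
    exact this.eventually (gt_mem_nhds hε)
  filter_upwards [hev] with t ht
  have hs1 : ∀ s ∈ Icc (x.1 - |t|) (x.1 + |t|), (s, x.2) ∈ Ω := by
    intro s hs
    apply hball
    rw [Metric.mem_ball, Prod.dist_eq, Real.dist_eq, Real.dist_eq]
    simp only [sub_self, abs_zero]
    refine max_lt ?_ hε
    refine lt_of_le_of_lt ?_ ht
    rw [abs_le]; constructor <;> linarith [hs.1, hs.2]
  have hs2 : ∀ s ∈ Icc (x.2 - |t|) (x.2 + |t|), (x.1, s) ∈ Ω := by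
    intro s hs
    apply hball
    rw [Metric.mem_ball, Prod.dist_eq, Real.dist_eq, Real.dist_eq]
    simp only [sub_self, abs_zero]
    refine max_lt hε ?_
    refine lt_of_le_of_lt ?_ ht
    rw [abs_le]; constructor <;> linarith [hs.1, hs.2]
  have c1 := h1 x.2 _ _ hs1
  have c2 := h2 x.1 _ _ hs2
  have ht1 := neg_abs_le t
  have ht2 := le_abs_self t
  constructor
  · have m1 : x.1 + t ∈ Icc (x.1 - |t|) (x.1 + |t|) := ⟨by linarith, by linarith⟩
    have m2 : x.1 - t ∈ Icc (x.1 - |t|) (x.1 + |t|) := ⟨by linarith, by linarith⟩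
    have := c1.2 m1 m2 (by norm_num : (0 : ℝ) ≤ 1 / 2) (by norm_num : (0 : ℝ) ≤ 1 / 2)
      (by norm_num)
    simp only [smul_eq_mul] at this
    have e : 1 / 2 * (x.1 + t) + 1 / 2 * (x.1 - t) = x.1 := by ring
    rw [e] at this
    linarith
  · have m1 : x.2 + t ∈ Icc (x.2 - |t|) (x.2 + |t|) := ⟨by linarith, by linarith⟩
    have m2 : x.2 - t ∈ Icc (x.2 - |t|) (x.2 + |t|) := ⟨by linarith, by linarith⟩
    have := c2.2 m1 m2 (by norm_num : (0 : ℝ) ≤ 1 / 2) (by norm_num : (0 : ℝ) ≤ 1 / 2)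
      (by norm_num)
    simp only [smul_eq_mul] at this
    have e : 1 / 2 * (x.2 + t) + 1 / 2 * (x.2 - t) = x.2 := by ring
    rw [e] at this
    linarith

/-- second derivative test for even perturbations -/
lemma deriv2_sym {g : ℝ → ℝ} {g' : ℝ → ℝ} {g'' : ℝ} (h1 : ∀ᶠ t in 𝓝 (0 : ℝ), HasDerivAt g (g' t) t)
    (h2 : HasDerivAt g' g'' 0) (hm : ∀ᶠ t in 𝓝 (0 : ℝ), 2 * g 0 ≤ g t + g (-t)) : 0 ≤ g'' := by
  by_contra hcon
  push Not at hcon
  have hneg : Tendsto (fun t : ℝ => -t) (𝓝 0) (𝓝 0) := by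
    have : Tendsto (fun t : ℝ => -t) (𝓝 0) (𝓝 (-0)) := (continuous_neg).tendsto 0
    rwa [neg_zero] at this
  have hmax : IsLocalMax (fun t => -(g t + g (-t))) 0 := by
    filter_upwards [hm] with t ht
    simp only [neg_zero]
    linarith
  have hd : ∀ᶠ t in 𝓝 (0 : ℝ), HasDerivAt (fun t => -(g t + g (-t))) (-(g' t - g' (-t))) t := by
    filter_upwards [h1, hneg.eventually h1] with t k1 k2
    have k3 : HasDerivAt (fun t => g (-t)) (g' (-t) * (-1)) t :=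
      k2.comp t (hasDerivAt_neg t)
    have k4 := (k1.add k3).neg
    have e : -(g' t - g' (-t)) = -(g' t + g' (-t) * (-1)) := by ring
    rw [e]
    exact k4
  have hde : deriv (fun t => -(g t + g (-t))) =ᶠ[𝓝 0] fun t => -(g' t - g' (-t)) := by
    filter_upwards [hd] with t ht using ht.deriv
  have hcont : ContinuousAt (fun t => -(g t + g (-t))) 0 := hd.self_of_nhds.continuousAt
  have key := deriv2_nonpos_of_isLocalMax hmax hcont
  have hn0 : HasDerivAt (fun t : ℝ => -t) (-1) 0 := hasDerivAt_neg 0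
  have h2' : HasDerivAt g' g'' (-0) := by rwa [neg_zero]
  have h3 : HasDerivAt (fun t => g' (-t)) (g'' * (-1)) 0 := h2'.comp 0 hn0
  have h4 : HasDerivAt (fun t => -(g' t - g' (-t))) (-(g'' - g'' * (-1))) 0 := (h2.sub h3).neg
  rw [hde.deriv_eq, h4.deriv] at key
  linarith

/-- for locally coordinate-convex functions the sign conditions are automatic -/
theorem Visc.of_cc (hc : CC Ω w)
    (hsub : ∀ x ∈ Ω, ∀ ψ : ℝ × ℝ → ℝ, ContDiffAt ℝ 2 ψ x → IsLocalMax (fun y => w y - ψ y) x →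
      0 ≤ D1 (D1 ψ) x → 0 ≤ D2 (D2 ψ) x → 1 ≤ D1 (D1 ψ) x * D2 (D2 ψ) x)
    (hsup : ∀ x ∈ Ω, ∀ ψ : ℝ × ℝ → ℝ, ContDiffAt ℝ 2 ψ x → IsLocalMin (fun y => w y - ψ y) x →
      0 ≤ D1 (D1 ψ) x → 0 ≤ D2 (D2 ψ) x → D1 (D1 ψ) x * D2 (D2 ψ) x ≤ 1) : Visc Ω w := by
  refine ⟨fun x hx ψ hψ hm => ?_, hsup⟩
  have hm' : ∀ᶠ y in 𝓝 x, w y - ψ y ≤ w x - ψ x := hm
  have T1 : Tendsto (fun t : ℝ => (x.1 + t, x.2)) (𝓝 0) (𝓝 x) := by
    have : ContinuousAt (fun t : ℝ => (x.1 + t, x.2)) 0 := by fun_prop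
    simpa [ContinuousAt] using this
  have T1' : Tendsto (fun t : ℝ => (x.1 - t, x.2)) (𝓝 0) (𝓝 x) := by
    have : ContinuousAt (fun t : ℝ => (x.1 - t, x.2)) 0 := by fun_prop
    simpa [ContinuousAt] using this
  have T2 : Tendsto (fun t : ℝ => (x.1, x.2 + t)) (𝓝 0) (𝓝 x) := by
    have : ContinuousAt (fun t : ℝ => (x.1, x.2 + t)) 0 := by fun_prop
    simpa [ContinuousAt] using this
  have T2' : Tendsto (fun t : ℝ => (x.1, x.2 - t)) (𝓝 0) (𝓝 x) := by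
    have : ContinuousAt (fun t : ℝ => (x.1, x.2 - t)) 0 := by fun_prop
    simpa [ContinuousAt] using this
  have p1 : 0 ≤ D1 (D1 ψ) x := by
    refine deriv2_sym (g := fun t => ψ (x.1 + t, x.2)) (g' := fun t => D1 ψ (x.1 + t, x.2)) ?_ ?_ ?_
    · filter_upwards [T1.eventually (ev_diff hψ)] with t ht
      have := hasDerivAt_slice1 ht
      exact this.comp_const_add x.1 t
    · have h1 : DifferentiableAt ℝ (D1 ψ) (x.1 + 0, x.2) := by simpa using diffD1 hψ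
      have := (hasDerivAt_slice1 h1).comp_const_add x.1 0
      simpa using this
    · filter_upwards [hc x hx, T1.eventually hm', T1'.eventually hm'] with t k1 k2 k3
      simp only [add_zero, ← sub_eq_add_neg]
      have := k1.1
      linarith
  have p2 : 0 ≤ D2 (D2 ψ) x := by
    refine deriv2_sym (g := fun t => ψ (x.1, x.2 + t)) (g' := fun t => D2 ψ (x.1, x.2 + t)) ?_ ?_ ?_
    · filter_upwards [T2.eventually (ev_diff hψ)] with t ht
      have := hasDerivAt_slice2 ht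
      exact this.comp_const_add x.2 t
    · have h1 : DifferentiableAt ℝ (D2 ψ) (x.1, x.2 + 0) := by simpa using diffD2 hψ
      have := (hasDerivAt_slice2 h1).comp_const_add x.2 0
      simpa using this
    · filter_upwards [hc x hx, T2.eventually hm', T2'.eventually hm'] with t k1 k2 k3
      simp only [add_zero, ← sub_eq_add_neg]
      have := k1.2
      linarith
  exact ⟨p1, p2, hsub x hx ψ hψ hm p1 p2⟩

end main

end AQ
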