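import Pool.Agent.Lib_helper42.AQ.FinalDefs
import Pool.Agent.Lib_helper65.AQ.ModQ

/-! Last pieces: extension of `C³` boundary data, coordinate-convexity of classical solutions,
uniqueness. -/

namespace AQ

open AP Set Filter Topology
open scoped Manifold ContDiff

/-- a function which is locally the restriction of `C³` functions is the restriction of one -/
theorem exists_ext {Γ : Set (ℝ × ℝ)} (hΓ : IsClosed Γ) {φ : ℝ × ℝ → ℝ} (h : C3On Γ φ) :
    ∃ ψ : ℝ × ℝ → ℝ, ContDiff ℝ 3 ψ ∧ ∀ x ∈ Γ, ψ x = φ x := by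
  classical
  obtain ⟨g, hg⟩ := exists_contMDiffMap_forall_mem_convex_of_local (M := ℝ × ℝ) (F := ℝ)
    𝓘(ℝ, ℝ × ℝ) (n := (3 : ℕ)) (t := fun x => if x ∈ Γ then {φ x} else univ)
    (by
      intro x
      by_cases hx : x ∈ Γ
      · simp only [hx, if_true]; exact convex_singleton _
      · simp only [hx, if_false]; exact convex_univ)
    (by
      intro x
      by_cases hx : x ∈ Γ
      · obtain ⟨ψ, hψ, he⟩ := h x hx
        refine ⟨_, he, ψ, ?_, fun y hy => ?_⟩
        · exact (contMDiff_iff_contDiff.2 (by exact_mod_cast hψ)).contMDiffOn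
        · by_cases hyΓ : y ∈ Γ
          · simp only [hyΓ, if_true, mem_singleton_iff]
            exact (hy hyΓ).symm
          · simp only [hyΓ, if_false]; exact mem_univ _
      · refine ⟨Γᶜ, hΓ.isOpen_compl.mem_nhds hx, fun _ => 0, contMDiffOn_const, fun y hy => ?_⟩
        have : y ∉ Γ := hy
        simp only [this, if_false]; exact mem_univ _)
  refine ⟨g, ?_, fun x hx => ?_⟩
  · have := contMDiff_iff_contDiff.1 g.contMDiff
    exact_mod_cast this
  · have := hg x
    simp only [hx, if_true, mem_singleton_iff] at this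
    exact this

section sections

variable {w : ℝ × ℝ → ℝ} {Ω : Set (ℝ × ℝ)} {c₀ : ℝ}

/-- strict convexity gives negativity between two nonpositive points -/
lemma neg_between {g g' : ℝ → ℝ} {g'' : ℝ → ℝ} (h1 : ∀ t, HasDerivAt g (g' t) t)
    (h2 : ∀ t, HasDerivAt g' (g'' t) t) (hpos : ∀ t, 0 < g'' t) {a b t : ℝ} (hat : a < t)
    (htb : t < b) (ha : g a ≤ 0) (hb : g b ≤ 0) : g t < 0 := by
  have hmono : StrictMono g' := strictMono_of_hasDerivAt_pos h2 hpos
  have hd : ∀ t, deriv g t = g' t := fun t => (h1 t).deriv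
  have hsc : StrictConvexOn ℝ univ g := by
    apply StrictMono.strictConvexOn_univ_of_deriv
    · exact continuous_iff_continuousAt.2 fun t => (h1 t).continuousAt
    · have : deriv g = g' := funext hd
      rw [this]; exact hmono
  have hab : a < b := hat.trans htb
  set θ : ℝ := (t - a) / (b - a) with hθ
  have hba : 0 < b - a := by linarith
  have hθ0 : 0 < θ := div_pos (by linarith) hba
  have hθ1 : θ < 1 := by rw [hθ, div_lt_one hba]; linarith
  have key := hsc.2 (mem_univ a) (mem_univ b) hab.ne (by linarith : 0 < 1 - θ) hθ0 (by ring)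
  have e : (1 - θ) • a + θ • b = t := by
    simp only [smul_eq_mul, hθ]
    field_simp
    ring
  rw [e] at key
  simp only [smul_eq_mul] at key
  nlinarith

lemma _root_.AP.Dom.neg1 (hD : Dom w Ω c₀) {a b t y : ℝ} (hat : a < t) (htb : t < b)
    (ha : w (a, y) ≤ 0) (hb : w (b, y) ≤ 0) : w (t, y) < 0 := by
  have hd1 : Differentiable ℝ (D1 w) :=
    (cd_D1 (n := 2) hD.smooth).differentiable (by norm_num)
  exact neg_between (g := fun t => w (t, y)) (g' := fun t => D1 w (t, y))
    (g'' := fun t => D1 (D1 w) (t, y)) (fun t => hasDerivAt_slice1 (hD.diff _))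
    (fun t => hasDerivAt_slice1 (hd1 _)) (fun t => lt_of_lt_of_le hD.cpos (hD.w11 _)) hat htb ha hb

lemma _root_.AP.Dom.neg2 (hD : Dom w Ω c₀) {a b t x : ℝ} (hat : a < t) (htb : t < b)
    (ha : w (x, a) ≤ 0) (hb : w (x, b) ≤ 0) : w (x, t) < 0 := by
  have hd1 : Differentiable ℝ (D2 w) :=
    (cd_D2 (n := 2) hD.smooth).differentiable (by norm_num)
  exact neg_between (g := fun t => w (x, t)) (g' := fun t => D2 w (x, t))
    (g'' := fun t => D2 (D2 w) (x, t)) (fun t => hasDerivAt_slice2 (hD.diff _))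
    (fun t => hasDerivAt_slice2 (hd1 _)) (fun t => lt_of_lt_of_le hD.cpos (hD.w22 _)) hat htb ha hb

/-- points between two points of the closure on a horizontal line are interior -/
lemma _root_.AP.Dom.sec1 (hD : Dom w Ω c₀) {a b t y : ℝ} (hat : a < t) (htb : t < b)
    (ha : (a, y) ∈ closure Ω) (hb : (b, y) ∈ closure Ω) : (t, y) ∈ Ω := by
  have hneg : ∀ s, a < s → s < b → w (s, y) < 0 := fun s h1 h2 =>
    hD.neg1 h1 h2 (hD.le ha) (hD.le hb)
  -- a point `(s, y)` of `Ω` with `a ≤ s ≤ t`, `w < 0` on `[s, t]`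
  obtain ⟨s, hs1, hs2, hsΩ, hsneg⟩ : ∃ s, a ≤ s ∧ s ≤ t ∧ (s, y) ∈ Ω ∧
      ∀ r, s ≤ r → r ≤ t → w (r, y) < 0 := by
    rcases hD.mem_or ha with h | h
    · refine ⟨a, le_rfl, hat.le, h, fun r hr1 hr2 => ?_⟩
      rcases hr1.eq_or_lt with h3 | h3
      · rw [← h3]; exact hD.neg _ h
      · exact hneg r h3 (lt_of_le_of_lt hr2 htb)
    · obtain ⟨δ, hδ, hloc⟩ := hD.loc _ h
      refine ⟨min t (a + δ / 2), le_min hat.le (by linarith), min_le_left _ _, ?_, ?_⟩
      · have h1 : a < min t (a + δ / 2) := lt_min hat (by linarith)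
        apply hloc
        · rw [Prod.dist_eq, Real.dist_eq, Real.dist_eq]
          simp only [sub_self, abs_zero]
          refine max_lt ?_ hδ
          rw [abs_of_pos (by linarith)]
          have := min_le_right t (a + δ / 2)
          linarith
        · exact hneg _ h1 (lt_of_le_of_lt (min_le_left _ _) htb)
      · intro r hr1 hr2
        have h1 : a < min t (a + δ / 2) := lt_min hat (by linarith)
        exact hneg r (lt_of_lt_of_le h1 hr1) (lt_of_le_of_lt hr2 htb)
  refine hD.seg _ hsΩ _ fun z hz => ?_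
  obtain ⟨p, q, hp, hq, hpq, rfl⟩ := hz
  have e : p • (s, y) + q • (t, y) = (p * s + q * t, y) := by
    ext
    · simp
    · simp only [Prod.snd_add, Prod.smul_snd, smul_eq_mul]; rw [← add_mul, hpq, one_mul]
  rw [e]
  have k1 := mul_nonneg hq (sub_nonneg.2 hs2)
  have k2 := mul_nonneg hp (sub_nonneg.2 hs2)
  have hp' : p = 1 - q := by linarith
  subst hp'
  apply hsneg
  · linarith
  · linarith

/-- points between two points of the closure on a vertical line are interior -/
lemma _root_.AP.Dom.sec2 (hD : Dom w Ω c₀) {a b t x : ℝ} (hat : a < t) (htb : t < b)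
    (ha : (x, a) ∈ closure Ω) (hb : (x, b) ∈ closure Ω) : (x, t) ∈ Ω := by
  have hneg : ∀ s, a < s → s < b → w (x, s) < 0 := fun s h1 h2 =>
    hD.neg2 h1 h2 (hD.le ha) (hD.le hb)
  obtain ⟨s, hs1, hs2, hsΩ, hsneg⟩ : ∃ s, a ≤ s ∧ s ≤ t ∧ (x, s) ∈ Ω ∧
      ∀ r, s ≤ r → r ≤ t → w (x, r) < 0 := by
    rcases hD.mem_or ha with h | h
    · refine ⟨a, le_rfl, hat.le, h, fun r hr1 hr2 => ?_⟩
      rcases hr1.eq_or_lt with h3 | h3
      · rw [← h3]; exact hD.neg _ h
      · exact hneg r h3 (lt_of_le_of_lt hr2 htb)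
    · obtain ⟨δ, hδ, hloc⟩ := hD.loc _ h
      refine ⟨min t (a + δ / 2), le_min hat.le (by linarith), min_le_left _ _, ?_, ?_⟩
      · have h1 : a < min t (a + δ / 2) := lt_min hat (by linarith)
        apply hloc
        · rw [Prod.dist_eq, Real.dist_eq, Real.dist_eq]
          simp only [sub_self, abs_zero]
          refine max_lt hδ ?_
          rw [abs_of_pos (by linarith)]
          have := min_le_right t (a + δ / 2)
          linarith
        · exact hneg _ h1 (lt_of_le_of_lt (min_le_left _ _) htb)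
      · intro r hr1 hr2
        have h1 : a < min t (a + δ / 2) := lt_min hat (by linarith)
        exact hneg r (lt_of_lt_of_le h1 hr1) (lt_of_le_of_lt hr2 htb)
  refine hD.seg _ hsΩ _ fun z hz => ?_
  obtain ⟨p, q, hp, hq, hpq, rfl⟩ := hz
  have e : p • (x, s) + q • (x, t) = (x, p * s + q * t) := by
    ext
    · simp only [Prod.fst_add, Prod.smul_fst, smul_eq_mul]; rw [← add_mul, hpq, one_mul]
    · simp
  rw [e]
  have k1 := mul_nonneg hq (sub_nonneg.2 hs2)
  have k2 := mul_nonneg hp (sub_nonneg.2 hs2)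
  have hp' : p = 1 - q := by linarith
  subst hp'
  apply hsneg
  · linarith
  · linarith

lemma convex_of_between {S : Set ℝ} (h : ∀ a ∈ S, ∀ b ∈ S, ∀ t, a < t → t < b → t ∈ S) :
    Convex ℝ S := by
  rw [convex_iff_ordConnected, ordConnected_iff]
  intro a ha b hb _ t ht
  rcases ht.1.eq_or_lt with h1 | h1
  · rw [← h1]; exact ha
  rcases ht.2.eq_or_lt with h2 | h2
  · rw [h2]; exact hb
  exact h a ha b hb t h1 h2

lemma _root_.AP.Dom.convex_sec1 (hD : Dom w Ω c₀) (y : ℝ) : Convex ℝ {t : ℝ | (t, y) ∈ closure Ω} :=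
  convex_of_between fun _ ha _ hb _ h1 h2 => subset_closure (hD.sec1 h1 h2 ha hb)

lemma _root_.AP.Dom.convex_sec2 (hD : Dom w Ω c₀) (x : ℝ) : Convex ℝ {t : ℝ | (x, t) ∈ closure Ω} :=
  convex_of_between fun _ ha _ hb _ h1 h2 => subset_closure (hD.sec2 h1 h2 ha hb)

lemma interior_between {S : Set ℝ} {t : ℝ} (ht : t ∈ interior S) : ∃ a ∈ S, ∃ b ∈ S, a < t ∧ t < b := by
  obtain ⟨ε, hε, hb⟩ := Metric.isOpen_iff.1 isOpen_interior t ht
  refine ⟨t - ε / 2, interior_subset (hb ?_), t + ε / 2, interior_subset (hb ?_), by linarith,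
    by linarith⟩
  · rw [Metric.mem_ball, Real.dist_eq, abs_of_neg (by linarith)]; linarith
  · rw [Metric.mem_ball, Real.dist_eq, abs_of_pos (by linarith)]; linarith

/-- classical coordinate-convexity -/
theorem coordConvex_of_C2 (hD : Dom w Ω c₀) {u : ℝ × ℝ → ℝ} (hc : ContinuousOn u (closure Ω))
    (hu : ContDiffOn ℝ 2 u Ω) (h1 : ∀ x ∈ Ω, 0 ≤ D1 (D1 u) x) (h2 : ∀ x ∈ Ω, 0 ≤ D2 (D2 u) x) :
    CoordConvex (closure Ω) u := by
  have hcd : ∀ x ∈ Ω, ContDiffAt ℝ 2 u x := fun x hx =>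
    (hu x hx).contDiffAt (hD.isOpen.mem_nhds hx)
  constructor
  · intro y
    have hint : ∀ t ∈ interior {t : ℝ | (t, y) ∈ closure Ω}, (t, y) ∈ Ω := by
      intro t ht
      obtain ⟨a, ha, b, hb, h3, h4⟩ := interior_between ht
      exact hD.sec1 h3 h4 ha hb
    refine convexOn_of_deriv2_nonneg (hD.convex_sec1 y) ?_ ?_ ?_ ?_
    · exact hc.comp (by fun_prop) fun t ht => ht
    · intro t ht
      exact ((hasDerivAt_slice1 (diff0 (hcd _ (hint t ht)))).differentiableAt).differentiableWithinAt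
    · intro t ht
      have hx := hcd _ (hint t ht)
      have e : deriv (fun s => u (s, y)) =ᶠ[𝓝 t] fun s => D1 u (s, y) := by
        filter_upwards [eventually_diff_slice1 hx] with s hs
        exact (hasDerivAt_slice1 (hs.differentiableAt (by norm_num))).deriv
      exact ((hasDerivAt_slice1 (diffD1 hx)).differentiableAt.congr_of_eventuallyEq
        e).differentiableWithinAt
    · intro t ht
      have hx := hcd _ (hint t ht)
      have := deriv2_slice1 hx
      simp only [Function.iterate_succ, Function.iterate_zero, Function.comp_apply, id]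
      rw [this]
      exact h1 _ (hint t ht)
  · intro x
    have hint : ∀ t ∈ interior {t : ℝ | (x, t) ∈ closure Ω}, (x, t) ∈ Ω := by
      intro t ht
      obtain ⟨a, ha, b, hb, h3, h4⟩ := interior_between ht
      exact hD.sec2 h3 h4 ha hb
    refine convexOn_of_deriv2_nonneg (hD.convex_sec2 x) ?_ ?_ ?_ ?_
    · exact hc.comp (by fun_prop) fun t ht => ht
    · intro t ht
      exact ((hasDerivAt_slice2 (diff0 (hcd _ (hint t ht)))).differentiableAt).differentiableWithinAt
    · intro t ht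
      have hx := hcd _ (hint t ht)
      have e : deriv (fun s => u (x, s)) =ᶠ[𝓝 t] fun s => D2 u (x, s) := by
        filter_upwards [eventually_diff_slice2 hx] with s hs
        exact (hasDerivAt_slice2 (hs.differentiableAt (by norm_num))).deriv
      exact ((hasDerivAt_slice2 (diffD2 hx)).differentiableAt.congr_of_eventuallyEq
        e).differentiableWithinAt
    · intro t ht
      have hx := hcd _ (hint t ht)
      have := deriv2_slice2 hx
      simp only [Function.iterate_succ, Function.iterate_zero, Function.comp_apply, id]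
      rw [this]
      exact h2 _ (hint t ht)

/-- coordinate-convex functions have nonnegative second differences -/
lemma CoordConvex.cc (hΩ : IsOpen Ω) {u : ℝ × ℝ → ℝ} (h : CoordConvex (closure Ω) u) :
    CC Ω u := by
  intro x hx
  obtain ⟨ε, hε, hball⟩ := Metric.isOpen_iff.1 hΩ x hx
  have hev : ∀ᶠ t in 𝓝 (0 : ℝ), |t| < ε := by
    have : Tendsto (fun t : ℝ => |t|) (𝓝 0) (𝓝 |0|) := continuous_abs.tendsto 0
    rw [abs_zero] at this
    exact this.eventually (gt_mem_nhds hε)
  filter_upwards [hev] with t ht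
  have m1 : ∀ s : ℝ, |s| < ε → (x.1 + s, x.2) ∈ closure Ω := by
    intro s hs
    apply subset_closure
    apply hball
    rw [Metric.mem_ball, Prod.dist_eq, Real.dist_eq, Real.dist_eq]
    simp only [sub_self, abs_zero, add_sub_cancel_left]
    exact max_lt hs hε
  have m2 : ∀ s : ℝ, |s| < ε → (x.1, x.2 + s) ∈ closure Ω := by
    intro s hs
    apply subset_closure
    apply hball
    rw [Metric.mem_ball, Prod.dist_eq, Real.dist_eq, Real.dist_eq]
    simp only [sub_self, abs_zero, add_sub_cancel_left]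
    exact max_lt hε hs
  have ht' : |-t| < ε := by rwa [abs_neg]
  constructor
  · have := (h.1 x.2).2 (m1 t ht) (m1 (-t) ht') (by norm_num : (0 : ℝ) ≤ 1 / 2)
      (by norm_num : (0 : ℝ) ≤ 1 / 2) (by norm_num)
    simp only [smul_eq_mul] at this
    have e : 1 / 2 * (x.1 + t) + 1 / 2 * (x.1 + -t) = x.1 := by ring
    rw [e, ← sub_eq_add_neg] at this
    linarith
  · have := (h.2 x.1).2 (m2 t ht) (m2 (-t) ht') (by norm_num : (0 : ℝ) ≤ 1 / 2)
      (by norm_num : (0 : ℝ) ≤ 1 / 2) (by norm_num)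
    simp only [smul_eq_mul] at this
    have e : 1 / 2 * (x.2 + t) + 1 / 2 * (x.2 + -t) = x.2 := by ring
    rw [e, ← sub_eq_add_neg] at this
    linarith

lemma IsSolution.visc (hΩ : IsOpen Ω) {φ v : ℝ × ℝ → ℝ} (hv : IsSolution Ω φ v) : Visc Ω v := by
  refine Visc.of_cc (hv.convex.cc hΩ) (fun x hx ψ hψ hm h1 h2 => ?_)
    (fun x hx ψ hψ hm h1 h2 => ?_)
  · have := (hv.eq x hx ψ hψ h1 h2).1 hm
    rwa [Real.one_le_sqrt] at this
  · have := (hv.eq x hx ψ hψ h1 h2).2 hm
    rwa [Real.sqrt_le_one] at this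

/-- a classical solution is the only solution -/
theorem IsSolution.unique (hD : Dom w Ω c₀) {φ u v : ℝ × ℝ → ℝ} (hu : ContDiffOn ℝ 2 u Ω)
    (huc : ContinuousOn u (closure Ω)) (h1 : ∀ x ∈ Ω, 0 < D1 (D1 u) x)
    (h2 : ∀ x ∈ Ω, 0 < D2 (D2 u) x) (heq : ∀ x ∈ Ω, D1 (D1 u) x * D2 (D2 u) x = 1)
    (hbc : ∀ x ∈ frontier Ω, u x = φ x) (hv : IsSolution Ω φ v) :
    ∀ x ∈ closure Ω, v x = u x :=
  visc_unique hD.isOpen hD.bdd hu huc hv.cont h1 h2 heq (hv.visc hD.isOpen)
    (fun x hx => by rw [hv.bc x hx, hbc x hx])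

/-- a classical solution is a solution -/
theorem IsSolution.of_classical (hD : Dom w Ω c₀) {φ u : ℝ × ℝ → ℝ} (hu : ContDiffOn ℝ 2 u Ω)
    (huc : ContinuousOn u (closure Ω)) (h1 : ∀ x ∈ Ω, 0 < D1 (D1 u) x)
    (h2 : ∀ x ∈ Ω, 0 < D2 (D2 u) x) (heq : ∀ x ∈ Ω, D1 (D1 u) x * D2 (D2 u) x = 1)
    (hbc : ∀ x ∈ frontier Ω, u x = φ x) : IsSolution Ω φ u where
  cont := huc
  convex := coordConvex_of_C2 hD huc hu (fun x hx => (h1 x hx).le) (fun x hx => (h2 x hx).le)
  eq := by
    have hV := classical_visc hD.isOpen hu h1 h2 heq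
    intro x hx ψ hψ k1 k2
    refine ⟨fun hm => ?_, fun hm => ?_⟩
    · rw [Real.one_le_sqrt]; exact (hV.sub x hx ψ hψ hm).2.2
    · rw [Real.sqrt_le_one]; exact hV.sup x hx ψ hψ hm k1 k2
  bc := hbc

end sections

end AQ
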